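import Pool.Agent.Lib.MixedOrient.Scale
import Pool.Agent.Lib.PolyTime.Reach

/-!
# The algorithm and its correctness
-/

set_option autoImplicit false

namespace Pool.Agent.MixedOrient

open Pool.Agent.PolyTime

/-- Reachability test. -/
def rchb (X : List Dart) (x y : ℕ) : Bool :=
  decide (y ∈ reach (X.map fun d => (d.2.2.1, d.2.2.2.1)) x)

lemma rchb_iff {X : List Dart} {x y : ℕ} : rchb X x y = true ↔ dg.R {d | d ∈ X} x y := by
  unfold rchb DG.R
  rw [decide_eq_true_iff, mem_reach]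
  have e : (fun a b => (a, b) ∈ X.map fun d => (d.2.2.1, d.2.2.2.1)) =
      fun x y => ∃ d ∈ {d | d ∈ X}, dg.src d = x ∧ dg.tgt d = y := by
    funext a b
    apply propext
    rw [List.mem_map]
    refine exists_congr fun d => and_congr_right fun _ => ?_
    rw [Prod.mk.injEq]
    rfl
  rw [e]

/-- Test for the condition of the two-pair theorem. -/
def hypb (X : List Dart) (a a' b b' : ℕ) : Bool :=
  (rchb X a a' && rchb X b b') &&
    X.all fun f => (!decide (dopp f ∈ X)) ||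
      (rchb (X.filter fun d => !decide (d = f)) a a' ||
        rchb (X.filter fun d => !decide (d = dopp f)) b b')

lemma set_filter_ne (X : List Dart) (f : Dart) :
    {d | d ∈ X.filter fun d => !decide (d = f)} = {d | d ∈ X} \ {f} := by
  ext d
  simp [List.mem_filter]

lemma hypb_iff {X : List Dart} {a a' b b' : ℕ} :
    hypb X a a' b b' = true ↔ dg.Hyp {d | d ∈ X} a a' b b' := by
  unfold hypb DG.Hyp
  rw [Bool.and_eq_true, Bool.and_eq_true, rchb_iff, rchb_iff, List.all_eq_true, and_assoc]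
  refine and_congr_right fun _ => and_congr_right fun _ => forall_congr' fun f =>
    forall_congr' fun _ => ?_
  rw [Bool.or_eq_true, Bool.or_eq_true, rchb_iff, rchb_iff, set_filter_ne, set_filter_ne]
  by_cases h : dopp f ∈ X
  · have h' : dg.opp f ∈ {d | d ∈ X} := h
    simp only [h, h', decide_true, Bool.not_true, Bool.false_eq_true, false_or, forall_true_left]
    rfl
  · have h' : dg.opp f ∉ {d | d ∈ X} := h
    simp [h, h']

/-- The darts of a level. -/
def levb (X : List Dart) (T1 T2 : List (ℕ × ℕ)) (c : ℕ) : List Dart :=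
  X.filter fun d => decide (lv T1 T2 d.2.2.1 = c) && decide (lv T1 T2 d.2.2.2.1 = c)

lemma levb_set (X : List Dart) (T1 T2 : List (ℕ × ℕ)) (c : ℕ) :
    {d | d ∈ levb X T1 T2 c} = dg.M {d | d ∈ X} (lv T1 T2) c := by
  ext d
  unfold levb
  simp only [Set.mem_setOf_eq, List.mem_filter, Bool.and_eq_true, decide_eq_true_eq]
  rfl

/-- Test for the moves of the first kind. -/
def step1b (L1 : List Dart) (T1 T2 : List (ℕ × ℕ)) (p q : ℕ × ℕ) : Bool :=
  L1.any fun d => (decide (p.1 = d.2.2.1) && decide (q.1 = d.2.2.2.1)) &&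
    (decide (p.2 = q.2) && decide (lv T1 T2 p.2 < lv T1 T2 d.2.2.2.1))

/-- Test for the moves of the second kind. -/
def step2b (L2 : List Dart) (T1 T2 : List (ℕ × ℕ)) (p q : ℕ × ℕ) : Bool :=
  L2.any fun f => (decide (p.1 = q.1) && decide (p.2 = f.2.2.2.1)) &&
    (decide (q.2 = f.2.2.1) && decide (lv T1 T2 p.1 < lv T1 T2 f.2.2.1))

/-- The conditions for the moves of the third kind. -/
def cond3 (L1 : List Dart) (T1 T2 : List (ℕ × ℕ)) (p q : ℕ × ℕ) (e f : Dart) : Bool :=
  ((decide (p.1 = e.2.2.1) && decide (p.2 = f.2.2.2.1)) && (!decide (f = dopp e))) &&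
    (((decide (lv T1 T2 e.2.2.1 < lv T1 T2 e.2.2.2.1) &&
      decide (lv T1 T2 f.2.2.2.1 < lv T1 T2 e.2.2.2.1)) &&
      decide (lv T1 T2 f.2.2.1 = lv T1 T2 e.2.2.2.1)) &&
    ((decide (lv T1 T2 q.1 = lv T1 T2 e.2.2.2.1) && decide (lv T1 T2 q.2 = lv T1 T2 e.2.2.2.1)) &&
      hypb (levb L1 T1 T2 (lv T1 T2 e.2.2.2.1)) e.2.2.2.1 q.1 q.2 f.2.2.1))

/-- Test for the moves of the third kind. -/
def step3b (L1 L2 : List Dart) (T1 T2 : List (ℕ × ℕ)) (p q : ℕ × ℕ) : Bool :=
  L1.any fun e => L2.any fun f => cond3 L1 T1 T2 p q e f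

/-- Test for the moves of the pair graph. -/
def stepb (L1 L2 : List Dart) (T1 T2 : List (ℕ × ℕ)) (p q : ℕ × ℕ) : Bool :=
  step1b L1 T1 T2 p q || (step2b L2 T1 T2 p q || step3b L1 L2 T1 T2 p q)

lemma stepb_iff {L1 L2 : List Dart} {T1 T2 : List (ℕ × ℕ)} {p q : ℕ × ℕ} :
    stepb L1 L2 T1 T2 p q = true ↔ dg.Step {d | d ∈ L1} {d | d ∈ L2} (lv T1 T2) p q := by
  unfold stepb
  rw [Bool.or_eq_true, Bool.or_eq_true]
  constructor
  · rintro (h | h | h)
    · unfold step1b at h
      rw [List.any_eq_true] at h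
      obtain ⟨d, hd, h⟩ := h
      simp only [Bool.and_eq_true, decide_eq_true_eq] at h
      obtain ⟨⟨h1, h2⟩, h3, h4⟩ := h
      have := DG.Step.t1 (G := dg) (X1 := {d | d ∈ L1}) (X2 := {d | d ∈ L2}) (S := lv T1 T2)
        d p.2 hd h4
      have e1 : p = (dg.src d, p.2) := by rw [← show p.1 = dg.src d from h1]
      have e2 : q = (dg.tgt d, p.2) := by rw [← show q.1 = dg.tgt d from h2, h3]
      rw [e2]
      conv => arg 5; rw [e1]
      exact this
    · unfold step2b at h
      rw [List.any_eq_true] at h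
      obtain ⟨d, hd, h⟩ := h
      simp only [Bool.and_eq_true, decide_eq_true_eq] at h
      obtain ⟨⟨h1, h2⟩, h3, h4⟩ := h
      have := DG.Step.t2 (G := dg) (X1 := {d | d ∈ L1}) (X2 := {d | d ∈ L2}) (S := lv T1 T2)
        d p.1 hd h4
      have e1 : p = (p.1, dg.tgt d) := by rw [← show p.2 = dg.tgt d from h2]
      have e2 : q = (p.1, dg.src d) := by rw [← show q.2 = dg.src d from h3, h1]
      rw [e2]
      conv => arg 5; rw [e1]
      exact this
    · unfold step3b at h
      rw [List.any_eq_true] at h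
      obtain ⟨e, he, h⟩ := h
      rw [List.any_eq_true] at h
      obtain ⟨f, hf, h⟩ := h
      unfold cond3 at h
      simp only [Bool.and_eq_true, decide_eq_true_eq, Bool.not_eq_true',
        decide_eq_false_iff_not, hypb_iff, levb_set] at h
      obtain ⟨⟨⟨h1, h2⟩, h3⟩, ⟨⟨h4, h5⟩, h6⟩, ⟨h7, h8⟩, h9⟩ := h
      have := DG.Step.t3 (G := dg) (X1 := {d | d ∈ L1}) (X2 := {d | d ∈ L2}) (S := lv T1 T2)
        e f q.1 q.2 he hf h3 h4 h5 h6 h7 h8 h9
      have e1 : p = (dg.src e, dg.tgt f) := by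
        rw [← show p.1 = dg.src e from h1, ← show p.2 = dg.tgt f from h2]
      rw [e1]
      exact this
  · intro h
    cases h with
    | t1 d y hd hlt =>
      left
      unfold step1b
      rw [List.any_eq_true]
      refine ⟨d, hd, ?_⟩
      simp only [Bool.and_eq_true, decide_eq_true_eq]
      exact ⟨⟨rfl, rfl⟩, trivial, hlt⟩
    | t2 f x hf hlt =>
      right; left
      unfold step2b
      rw [List.any_eq_true]
      refine ⟨f, hf, ?_⟩
      simp only [Bool.and_eq_true, decide_eq_true_eq]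
      exact ⟨⟨trivial, rfl⟩, rfl, hlt⟩
    | t3 e f x y he hf hne h4 h5 h6 h7 h8 h9 =>
      right; right
      unfold step3b
      rw [List.any_eq_true]
      refine ⟨e, he, ?_⟩
      rw [List.any_eq_true]
      refine ⟨f, hf, ?_⟩
      unfold cond3
      simp only [Bool.and_eq_true, decide_eq_true_eq, Bool.not_eq_true',
        decide_eq_false_iff_not, hypb_iff, levb_set]
      exact ⟨⟨⟨rfl, rfl⟩, hne⟩, ⟨⟨h4, h5⟩, h6⟩, ⟨h7, h8⟩, h9⟩

/-- The edges of the pair graph. -/
def pairE (V : List ℕ) (L1 L2 : List Dart) (T1 T2 : List (ℕ × ℕ)) : List ((ℕ × ℕ) × (ℕ × ℕ)) :=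
  ((V ×ˢ V) ×ˢ (V ×ˢ V)).filter fun e => stepb L1 L2 T1 T2 e.1 e.2

/-- Test for the reachability of `(t, t)`. -/
def core (V : List ℕ) (L1 L2 : List Dart) (T1 T2 : List (ℕ × ℕ)) (s t : ℕ) : Bool :=
  (V ×ˢ V).any fun q => (decide (lv T1 T2 q.1 = 0) && decide (lv T1 T2 q.2 = 0)) &&
    (hypb (levb L1 T1 T2 0) s q.1 q.2 s && decide ((t, t) ∈ reach (pairE V L1 L2 T1 T2) q))

/-- The vertices. -/
def verts (D : List Dart) (s : ℕ) : List ℕ :=
  s :: ((D.map fun d => d.2.2.1) ++ D.map fun d => d.2.2.2.1)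

lemma src_mem {D : List Dart} {s : ℕ} {d : Dart} (hd : d ∈ D) : dg.src d ∈ verts D s := by
  unfold verts
  refine List.mem_cons_of_mem _ (List.mem_append_left _ ?_)
  exact List.mem_map.2 ⟨d, hd, rfl⟩

lemma tgt_mem {D : List Dart} {s : ℕ} {d : Dart} (hd : d ∈ D) : dg.tgt d ∈ verts D s := by
  unfold verts
  refine List.mem_cons_of_mem _ (List.mem_append_right _ ?_)
  exact List.mem_map.2 ⟨d, hd, rfl⟩

lemma R_mem_right {D : List Dart} {s : ℕ} {F : Set Dart} (hF : ∀ d ∈ F, d ∈ D) {x y : ℕ}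
    (h : dg.R F x y) (hx : x ∈ verts D s) : y ∈ verts D s := by
  induction h with
  | refl => exact hx
  | tail _ hstep _ =>
    obtain ⟨d, hd, -, h2⟩ := hstep
    rw [← h2]
    exact tgt_mem (hF d hd)

lemma R_mem_left {D : List Dart} {s : ℕ} {F : Set Dart} (hF : ∀ d ∈ F, d ∈ D) {x y : ℕ}
    (h : dg.R F x y) (hy : y ∈ verts D s) : x ∈ verts D s := by
  induction h using Relation.ReflTransGen.head_induction_on with
  | refl => exact hy
  | head hstep _ _ =>
    obtain ⟨d, hd, h1, -⟩ := hstep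
    rw [← h1]
    exact src_mem (hF d hd)

lemma core_iff {D L1 L2 : List Dart} (h1 : ∀ d ∈ L1, d ∈ D) (h2 : ∀ d ∈ L2, d ∈ D)
    {T1 T2 : List (ℕ × ℕ)} {s t : ℕ} :
    core (verts D s) L1 L2 T1 T2 s t = true ↔
      dg.PR {d | d ∈ L1} {d | d ∈ L2} (lv T1 T2) s (t, t) := by
  have hstep : ∀ p q : ℕ × ℕ, p.1 ∈ verts D s → p.2 ∈ verts D s →
      dg.Step {d | d ∈ L1} {d | d ∈ L2} (lv T1 T2) p q → q.1 ∈ verts D s ∧ q.2 ∈ verts D s := by
    intro p q hp1 hp2 h
    cases h with
    | t1 d y hd hlt => exact ⟨tgt_mem (h1 d hd), hp2⟩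
    | t2 f x hf hlt => exact ⟨hp1, src_mem (h2 f hf)⟩
    | t3 e f x y he hf hne h4 h5 h6 h7 h8 h9 =>
      have hM : ∀ d ∈ dg.M {d | d ∈ L1} (lv T1 T2) (lv T1 T2 (dg.tgt e)), d ∈ D :=
        fun d hd => h1 d hd.1
      exact ⟨R_mem_right hM h9.1 (tgt_mem (h1 e he)), R_mem_left hM h9.2.1 (src_mem (h2 f hf))⟩
  have hreach : ∀ p q : ℕ × ℕ, p.1 ∈ verts D s → p.2 ∈ verts D s →
      (q ∈ reach (pairE (verts D s) L1 L2 T1 T2) p ↔
        Relation.ReflTransGen (dg.Step {d | d ∈ L1} {d | d ∈ L2} (lv T1 T2)) p q) := by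
    intro p q hp1 hp2
    rw [mem_reach]
    constructor
    · intro h
      induction h with
      | refl => exact Relation.ReflTransGen.refl
      | tail _ hs ih =>
        refine ih.tail ?_
        have := (List.mem_filter.1 hs).2
        exact stepb_iff.1 this
    · intro h
      have key : Relation.ReflTransGen (fun a b => (a, b) ∈ pairE (verts D s) L1 L2 T1 T2) p q ∧
          q.1 ∈ verts D s ∧ q.2 ∈ verts D s := by
        induction h with
        | refl => exact ⟨Relation.ReflTransGen.refl, hp1, hp2⟩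
        | @tail b c _ hs ih =>
          obtain ⟨ih1, ih2, ih3⟩ := ih
          obtain ⟨hc1, hc2⟩ := hstep b c ih2 ih3 hs
          refine ⟨ih1.tail ?_, hc1, hc2⟩
          refine List.mem_filter.2 ⟨?_, stepb_iff.2 hs⟩
          exact List.pair_mem_product.2 ⟨List.pair_mem_product.2 ⟨ih2, ih3⟩,
            List.pair_mem_product.2 ⟨hc1, hc2⟩⟩
      exact key.1
  unfold core
  rw [List.any_eq_true]
  constructor
  · rintro ⟨⟨x, y⟩, hq, h⟩
    replace hq := List.pair_mem_product.1 hq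
    simp only [Bool.and_eq_true, decide_eq_true_eq, hypb_iff, levb_set] at h
    obtain ⟨⟨a1, a2⟩, a3, a4⟩ := h
    exact ⟨(x, y), a1, a2, a3, (hreach (x, y) (t, t) hq.1 hq.2).1 a4⟩
  · rintro ⟨⟨x, y⟩, a1, a2, a3, a4⟩
    have hM : ∀ d ∈ dg.M {d | d ∈ L1} (lv T1 T2) 0, d ∈ D := fun d hd => h1 d hd.1
    have hs : s ∈ verts D s := List.mem_cons_self
    have hx : x ∈ verts D s := R_mem_right hM a3.1 hs
    have hy : y ∈ verts D s := R_mem_left hM a3.2.1 hs
    refine ⟨(x, y), List.pair_mem_product.2 ⟨hx, hy⟩, ?_⟩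
    simp only [Bool.and_eq_true, decide_eq_true_eq, hypb_iff, levb_set]
    exact ⟨⟨a1, a2⟩, a3, (hreach (x, y) (t, t) hx hy).2 a4⟩

/-- The decision with given tables. -/
def algoT (D : List Dart) (T1 T2 : List (ℕ × ℕ)) (s t : ℕ) : Bool :=
  (!tk T1 t) || ((!tk T2 t) || core (verts D s) (D.filter fun d => x1b T1 T2 d)
    (D.filter fun d => x2b T1 T2 d) T1 T2 s t)

/-- The algorithm on the list of darts. -/
def algo (D : List Dart) (s t : ℕ) : Bool :=
  algoT D (dijk (D.map arc) s) (dijk (D.map fun d => swp (arc d)) s) s t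

theorem algo_iff (D : List Dart) (s t : ℕ) : algo D s t = true ↔
    ∃ F ⊆ {d | d ∈ D}, dg.Cons F ∧ Pres {d | d ∈ D} F s t := by
  have g1 : Good (arc '' {d | d ∈ D}) s (dijk (D.map arc) s) := by
    have := dijk_good (D.map arc) s
    have e : {e | e ∈ D.map arc} = arc '' {d | d ∈ D} := by
      ext c; simp [List.mem_map]
    rwa [e] at this
  have g2 : Good (swp '' (arc '' {d | d ∈ D})) s (dijk (D.map fun d => swp (arc d)) s) := by
    have := dijk_good (D.map fun d => swp (arc d)) s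
    have e : {e | e ∈ D.map fun d => swp (arc d)} = swp '' (arc '' {d | d ∈ D}) := by
      ext c
      constructor
      · intro hc
        obtain ⟨d, hd, h⟩ := List.mem_map.1 hc
        exact ⟨arc d, ⟨d, hd, rfl⟩, h⟩
      · rintro ⟨_, ⟨d, hd, rfl⟩, h⟩
        exact List.mem_map.2 ⟨d, hd, h⟩
    rwa [e] at this
  have hfin : {d | d ∈ D}.Finite := List.finite_toSet D
  unfold algo
  generalize dijk (D.map arc) s = T1 at g1 ⊢
  generalize dijk (D.map fun d => swp (arc d)) s = T2 at g2 ⊢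
  unfold algoT
  rw [Bool.or_eq_true, Bool.or_eq_true, Bool.not_eq_true', Bool.not_eq_true']
  by_cases c1 : tk T1 t = true
  · by_cases c2 : tk T2 t = true
    · rw [pres_iff hfin g1 g2 c1 c2, c1, c2,
        core_iff (fun d hd => (List.mem_filter.1 hd).1) (fun d hd => (List.mem_filter.1 hd).1)]
      have e1 : {d | d ∈ D.filter fun d => x1b T1 T2 d} = X1 {d | d ∈ D} T1 T2 := by
        ext d; simp [X1, List.mem_filter]
      have e2 : {d | d ∈ D.filter fun d => x2b T1 T2 d} = X2 {d | d ∈ D} T1 T2 := by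
        ext d; simp [X2, List.mem_filter]
      rw [e1, e2]
      simp
    · have c2' : tk T2 t = false := by simpa using c2
      refine ⟨fun _ => pres_of_none hfin g1 g2 (Or.inr c2'), fun _ => Or.inr (Or.inl c2')⟩
  · have c1' : tk T1 t = false := by simpa using c1
    refine ⟨fun _ => pres_of_none hfin g1 g2 (Or.inl c1'), fun _ => Or.inl c1'⟩

/-- The algorithm on instances. -/
def Inst.alg (G : Inst) : Bool := algo G.darts G.s G.t

/-- Correctness. -/
theorem alg_iff (G : Inst) : G.alg = true ↔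
    ∃ σ : ℕ → Bool, dist (G.orient σ) G.s G.t = dist G.full G.s G.t ∧
      dist (G.orient σ) G.t G.s = dist G.full G.t G.s := by
  unfold Inst.alg
  rw [algo_iff, orient_iff]

end Pool.Agent.MixedOrient
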