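import Pool.Agent.Lib.MixedOrient.Algo
import Pool.Agent.Lib.PolyTime.Subsets

/-!
# The algorithm runs in polynomial time
-/

set_option autoImplicit false

namespace Pool.Agent.MixedOrient

open Pool.Agent.PolyTime

variable {α β : Type*} [Enc α] [Enc β]

@[fun_prop] lemma pt_tv {T : α → List (ℕ × ℕ)} {x : α → ℕ} (hT : PT T) (hx : PT x) :
    PT fun a => tv (T a) (x a) :=
  PT.optGetD (PT.lookup hx hT) (PT.const 0)

@[fun_prop] lemma pt_tk {T : α → List (ℕ × ℕ)} {x : α → ℕ} (hT : PT T) (hx : PT x) :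
    PT fun a => tk (T a) (x a) :=
  PT.isSome (PT.lookup hx hT)

@[fun_prop] lemma pt_swp {e : α → ℕ × ℕ × ℕ} (he : PT e) : PT fun a => swp (e a) := by
  unfold swp
  fun_prop

@[fun_prop] lemma pt_arc {d : α → Dart} (hd : PT d) : PT fun a => arc (d a) := by
  unfold arc
  fun_prop

@[fun_prop] lemma pt_dopp {d : α → Dart} (hd : PT d) : PT fun a => dopp (d a) := by
  unfold dopp
  fun_prop

@[fun_prop] lemma pt_cands {C : α → List (ℕ × ℕ × ℕ)} {T : α → List (ℕ × ℕ)} (hC : PT C)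
    (hT : PT T) : PT fun a => cands (C a) (T a) := by
  refine PT.flatMap (f := fun a (e : ℕ × ℕ × ℕ) => match (T a).lookup e.1 with
    | none => []
    | some v => bif ((T a).lookup e.2.1).isSome then [] else [(e.2.1, v + e.2.2)]) ?_ hC
  have h1 : PT fun q : (α × ℕ × ℕ × ℕ) × ℕ =>
      bif ((T q.1.1).lookup q.1.2.2.1).isSome then ([] : List (ℕ × ℕ))
      else [(q.1.2.2.1, q.2 + q.1.2.2.2)] := by
    refine PT.bif ?_ (by fun_prop) (by fun_prop)
    exact PT.isSome (PT.lookup (by fun_prop) (by fun_prop))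
  have h2 := PT.optionCases (o := fun p : α × ℕ × ℕ × ℕ => (T p.1).lookup p.2.1)
    (f := fun _ => ([] : List (ℕ × ℕ)))
    (g := fun p v => bif ((T p.1).lookup p.2.2.1).isSome then []
      else [(p.2.2.1, v + p.2.2.2)]) (PT.lookup (by fun_prop) (by fun_prop)) (by fun_prop) h1
  refine h2.congr fun p => ?_
  cases (T p.1).lookup p.2.1 <;> rfl

@[fun_prop] lemma pt_best {L : α → List (ℕ × ℕ)} (hL : PT L) : PT fun a => best (L a) := by
  refine PT.find? (f := fun a c => (L a).all fun c' => decide (c.2 ≤ c'.2)) ?_ hL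
  exact PT.all (f := fun (p : α × ℕ × ℕ) (c' : ℕ × ℕ) => decide (p.2.2 ≤ c'.2))
    (PT.decide_le (by fun_prop) (by fun_prop)) (by fun_prop)

lemma pt_dstep {C : α → List (ℕ × ℕ × ℕ)} {T : α → List (ℕ × ℕ)} (hC : PT C) (hT : PT T) :
    PT fun a => dstep (C a) (T a) := by
  have h := PT.optionCases (o := fun a => best (cands (C a) (T a))) (f := T)
    (g := fun a c => c :: T a) (by fun_prop) hT (by fun_prop)
  refine h.congr fun a => ?_
  unfold dstep
  cases best (cands (C a) (T a)) <;> rfl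

/-! ### sizes -/

/-- All the entries of the table are small. -/
structure Small (C : List (ℕ × ℕ × ℕ)) (s n : ℕ) (T : List (ℕ × ℕ)) : Prop where
  len : T.length ≤ n + 1
  name : ∀ c ∈ T, sz c.1 ≤ sz C + sz s
  val : ∀ c ∈ T, c.2 ≤ n * 2 ^ sz C

lemma mem_of_lookup {T : List (ℕ × ℕ)} {x v : ℕ} (h : T.lookup x = some v) : (x, v) ∈ T := by
  induction T with
  | nil => simp at h
  | cons c T ih =>
    rw [lookup_cons'] at h
    by_cases hx : x = c.1
    · rw [if_pos hx] at h
      obtain rfl := Option.some_inj.1 h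
      rw [hx]
      exact List.mem_cons_self
    · rw [if_neg hx] at h
      exact List.mem_cons_of_mem _ (ih h)

lemma Small.step {C : List (ℕ × ℕ × ℕ)} {s n : ℕ} {T : List (ℕ × ℕ)} (h : Small C s n T) :
    Small C s (n + 1) (dstep C T) := by
  have hle : n * 2 ^ sz C ≤ (n + 1) * 2 ^ sz C := Nat.mul_le_mul_right _ (Nat.le_succ n)
  unfold dstep
  cases hb : best (cands C T) with
  | none =>
    exact ⟨h.len.trans (Nat.le_succ _), h.name, fun c hc => (h.val c hc).trans hle⟩
  | some c =>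
    obtain ⟨h1, -⟩ := best_some hb
    obtain ⟨e, he, v, h3, -, h5⟩ := mem_cands.1 h1
    have hsz : sz e ≤ sz C := sz_le_of_mem he
    have hsz2 : sz e = sz e.1 + (sz e.2.1 + sz e.2.2 + 1) + 1 := by
      rw [sz_prod, sz_prod]
    refine ⟨?_, ?_, ?_⟩
    · simp only [List.length_cons]
      have := h.len
      omega
    · intro c' hc'
      rcases List.mem_cons.1 hc' with rfl | hc'
      · rw [h5]
        simp only
        omega
      · exact h.name c' hc'
    · intro c' hc'
      rcases List.mem_cons.1 hc' with rfl | hc'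
      · rw [h5]
        simp only
        have h6 := h.val _ (mem_of_lookup h3)
        simp only at h6
        have h7 : e.2.2 < 2 ^ e.2.2.size := Nat.lt_size_self _
        have h8 : 2 ^ e.2.2.size ≤ 2 ^ sz C := by
          apply Nat.pow_le_pow_right (by norm_num)
          have := size_lt_sz e.2.2
          omega
        rw [Nat.add_mul, one_mul]
        omega
      · exact (h.val c' hc').trans hle

lemma small_iter (C : List (ℕ × ℕ × ℕ)) (s n : ℕ) : Small C s n ((dstep C)^[n] [(s, 0)]) := by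
  induction n with
  | zero =>
    refine ⟨by simp, ?_, ?_⟩
    · intro c hc
      simp only [Function.iterate_zero, id_eq, List.mem_singleton] at hc
      rw [hc]
      exact Nat.le_add_left _ _
    · intro c hc
      simp only [Function.iterate_zero, id_eq, List.mem_singleton] at hc
      rw [hc]; simp
  | succ n ih =>
    rw [Function.iterate_succ_apply']
    exact ih.step

lemma Small.size {C : List (ℕ × ℕ × ℕ)} {s n : ℕ} {T : List (ℕ × ℕ)} (h : Small C s n T)
    (hn : n ≤ C.length) : sz T ≤ (sz C + 1) * (9 * sz C + sz s + 7) + 1 := by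
  have hn' : n < sz C := lt_of_le_of_lt hn (length_lt_sz C)
  have h1 : ∀ c ∈ T, sz c ≤ 9 * sz C + sz s + 6 := by
    intro c hc
    rw [sz_prod]
    have h2 := h.name c hc
    have h3 := h.val c hc
    have h4 : n < 2 ^ sz C := hn'.trans Nat.lt_two_pow_self
    have h5 : c.2 < 2 ^ (2 * sz C) := by
      refine lt_of_le_of_lt h3 ?_
      rw [two_mul, pow_add]
      exact Nat.mul_lt_mul_of_pos_right h4 (by positivity)
    have h6 := Nat.size_le.2 h5
    have h7 := sz_nat_le c.2
    omega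
  refine (sz_list_le h1).trans ?_
  have h2 : T.length ≤ sz C + 1 := by
    have := h.len
    omega
  have h3 := Nat.mul_le_mul_right (9 * sz C + sz s + 6 + 1) h2
  exact Nat.succ_le_succ h3

@[fun_prop] lemma pt_dijk {C : α → List (ℕ × ℕ × ℕ)} {s : α → ℕ} (hC : PT C) (hs : PT s) :
    PT fun a => dijk (C a) (s a) := by
  let f : List (ℕ × ℕ × ℕ) × List (ℕ × ℕ) → List (ℕ × ℕ × ℕ) × List (ℕ × ℕ) :=
    fun p => (p.1, dstep p.1 p.2)
  have hf : PT f := PT.pair (by fun_prop) (pt_dstep (by fun_prop) (by fun_prop))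
  have key : ∀ n C (T : List (ℕ × ℕ)), f^[n] (C, T) = (C, (dstep C)^[n] T) := by
    intro n
    induction n with
    | zero => intro C T; rfl
    | succ n ih =>
      intro C T
      rw [Function.iterate_succ_apply, Function.iterate_succ_apply]
      exact ih _ _
  have h1 := PT.iterate_length (f := f) (s := fun a => (C a, [(s a, 0)])) (l := C)
    (B := fun a => sz (C a) + ((sz (C a) + 1) * (9 * sz (C a) + sz (s a) + 7) + 1) + 1)
    hf (by fun_prop) hC
    (((PT.bdd hC).add (((((PT.bdd hC).add (PBd.const 1)).mul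
      ((((PBd.const 9).mul (PT.bdd hC)).add (PT.bdd hs)).add (PBd.const 7)))).add
        (PBd.const 1))).add (PBd.const 1)) (by
      intro a i hi
      rw [key, sz_prod]
      have := (small_iter (C a) (s a) i).size hi
      show sz (C a) + sz ((dstep (C a))^[i] [(s a, 0)]) + 1 ≤ _
      omega)
  refine (PT.snd h1).congr fun a => ?_
  rw [key]; rfl

/-! ### the decision -/

@[fun_prop] lemma pt_lv {T1 T2 : α → List (ℕ × ℕ)} {x : α → ℕ} (h1 : PT T1) (h2 : PT T2)
    (hx : PT x) : PT fun a => lv (T1 a) (T2 a) (x a) := by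
  unfold lv
  fun_prop

@[fun_prop] lemma pt_okb {T1 T2 : α → List (ℕ × ℕ)} {d : α → Dart} (h1 : PT T1) (h2 : PT T2)
    (hd : PT d) : PT fun a => okb (T1 a) (T2 a) (d a) := by
  unfold okb dg
  simp only
  fun_prop

@[fun_prop] lemma pt_x1b {T1 T2 : α → List (ℕ × ℕ)} {d : α → Dart} (h1 : PT T1) (h2 : PT T2)
    (hd : PT d) : PT fun a => x1b (T1 a) (T2 a) (d a) := by
  unfold x1b dg
  simp only
  fun_prop

@[fun_prop] lemma pt_x2b {T1 T2 : α → List (ℕ × ℕ)} {d : α → Dart} (h1 : PT T1) (h2 : PT T2)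
    (hd : PT d) : PT fun a => x2b (T1 a) (T2 a) (d a) := by
  unfold x2b dg
  simp only
  fun_prop

@[fun_prop] lemma pt_rchb {X : α → List Dart} {x y : α → ℕ} (hX : PT X) (hx : PT x) (hy : PT y) :
    PT fun a => rchb (X a) (x a) (y a) := by
  exact PT.decide_reach (E := fun a => (X a).map fun d => (d.2.2.1, d.2.2.2.1))
    (PT.map (f := fun (_ : α) (d : Dart) => (d.2.2.1, d.2.2.2.1)) (by fun_prop) hX) hx hy

lemma pt_filter_ne {X : α → List Dart} {f : α → Dart} (hX : PT X) (hf : PT f) :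
    PT fun a => (X a).filter fun d => !decide (d = f a) :=
  PT.filter (f := fun (a : α) (d : Dart) => !decide (d = f a))
    (PT.not (PT.decide_eq (by fun_prop) (by fun_prop))) hX

@[fun_prop] lemma pt_hypb {X : α → List Dart} {a1 a2 b1 b2 : α → ℕ} (hX : PT X) (h1 : PT a1)
    (h2 : PT a2) (h3 : PT b1) (h4 : PT b2) :
    PT fun a => hypb (X a) (a1 a) (a2 a) (b1 a) (b2 a) := by
  refine PT.and (by fun_prop) ?_
  refine PT.all (f := fun a (f : Dart) => (!decide (dopp f ∈ X a)) ||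
      (rchb ((X a).filter fun d => !decide (d = f)) (a1 a) (a2 a) ||
        rchb ((X a).filter fun d => !decide (d = dopp f)) (b1 a) (b2 a))) ?_ hX
  have hm : PT fun p : α × Dart => decide (dopp p.2 ∈ X p.1) :=
    (PT.mem (f := fun p : α × Dart => dopp p.2) (l := fun p => X p.1)
      (by fun_prop) (by fun_prop)).congr fun p => decide_eq_decide.2 Iff.rfl
  refine PT.or (PT.not hm) (PT.or ?_ ?_)
  · exact pt_rchb (pt_filter_ne (by fun_prop) (by fun_prop)) (by fun_prop) (by fun_prop)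
  · exact pt_rchb (pt_filter_ne (by fun_prop) (by fun_prop)) (by fun_prop) (by fun_prop)

@[fun_prop] lemma pt_levb {X : α → List Dart} {T1 T2 : α → List (ℕ × ℕ)} {c : α → ℕ}
    (hX : PT X) (h1 : PT T1) (h2 : PT T2) (hc : PT c) :
    PT fun a => levb (X a) (T1 a) (T2 a) (c a) := by
  refine PT.filter (f := fun a (d : Dart) => decide (lv (T1 a) (T2 a) d.2.2.1 = c a) &&
    decide (lv (T1 a) (T2 a) d.2.2.2.1 = c a)) ?_ hX
  exact PT.and (PT.decide_eq (by fun_prop) (by fun_prop)) (PT.decide_eq (by fun_prop) (by fun_prop))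

@[fun_prop] lemma pt_step1b {L1 : α → List Dart} {T1 T2 : α → List (ℕ × ℕ)}
    {p q : α → ℕ × ℕ} (hL1 : PT L1) (h1 : PT T1) (h2 : PT T2) (hp : PT p) (hq : PT q) :
    PT fun a => step1b (L1 a) (T1 a) (T2 a) (p a) (q a) := by
  refine PT.any (f := fun a (d : Dart) => (decide ((p a).1 = d.2.2.1) &&
    decide ((q a).1 = d.2.2.2.1)) && (decide ((p a).2 = (q a).2) &&
      decide (lv (T1 a) (T2 a) (p a).2 < lv (T1 a) (T2 a) d.2.2.2.1))) ?_ hL1
  refine PT.and (PT.and (PT.decide_eq (by fun_prop) (by fun_prop))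
    (PT.decide_eq (by fun_prop) (by fun_prop))) (PT.and (PT.decide_eq (by fun_prop) (by fun_prop))
      (PT.decide_lt (by fun_prop) (by fun_prop)))

@[fun_prop] lemma pt_step2b {L2 : α → List Dart} {T1 T2 : α → List (ℕ × ℕ)}
    {p q : α → ℕ × ℕ} (hL2 : PT L2) (h1 : PT T1) (h2 : PT T2) (hp : PT p) (hq : PT q) :
    PT fun a => step2b (L2 a) (T1 a) (T2 a) (p a) (q a) := by
  refine PT.any (f := fun a (f : Dart) => (decide ((p a).1 = (q a).1) &&
    decide ((p a).2 = f.2.2.2.1)) && (decide ((q a).2 = f.2.2.1) &&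
      decide (lv (T1 a) (T2 a) (p a).1 < lv (T1 a) (T2 a) f.2.2.1))) ?_ hL2
  refine PT.and (PT.and (PT.decide_eq (by fun_prop) (by fun_prop))
    (PT.decide_eq (by fun_prop) (by fun_prop))) (PT.and (PT.decide_eq (by fun_prop) (by fun_prop))
      (PT.decide_lt (by fun_prop) (by fun_prop)))

@[fun_prop] lemma pt_cond3 {L1 : α → List Dart} {T1 T2 : α → List (ℕ × ℕ)}
    {p q : α → ℕ × ℕ} {e f : α → Dart} (hL1 : PT L1) (h1 : PT T1) (h2 : PT T2) (hp : PT p)
    (hq : PT q) (he : PT e) (hf : PT f) :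
    PT fun a => cond3 (L1 a) (T1 a) (T2 a) (p a) (q a) (e a) (f a) := by
  refine PT.and (PT.and (PT.and (PT.decide_eq (by fun_prop) (by fun_prop))
    (PT.decide_eq (by fun_prop) (by fun_prop))) (PT.not (PT.decide_eq (by fun_prop)
      (by fun_prop)))) (PT.and (PT.and (PT.and (PT.decide_lt (by fun_prop) (by fun_prop))
        (PT.decide_lt (by fun_prop) (by fun_prop))) (PT.decide_eq (by fun_prop) (by fun_prop)))
      (PT.and (PT.and (PT.decide_eq (by fun_prop) (by fun_prop))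
        (PT.decide_eq (by fun_prop) (by fun_prop))) ?_))
  fun_prop

@[fun_prop] lemma pt_step3b {L1 L2 : α → List Dart} {T1 T2 : α → List (ℕ × ℕ)}
    {p q : α → ℕ × ℕ} (hL1 : PT L1) (hL2 : PT L2) (h1 : PT T1) (h2 : PT T2) (hp : PT p)
    (hq : PT q) : PT fun a => step3b (L1 a) (L2 a) (T1 a) (T2 a) (p a) (q a) := by
  refine PT.any (f := fun a (e : Dart) => (L2 a).any fun f =>
    cond3 (L1 a) (T1 a) (T2 a) (p a) (q a) e f) ?_ hL1
  refine PT.any (f := fun (b : α × Dart) (f : Dart) =>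
    cond3 (L1 b.1) (T1 b.1) (T2 b.1) (p b.1) (q b.1) b.2 f) ?_ (by fun_prop)
  fun_prop

@[fun_prop] lemma pt_stepb {L1 L2 : α → List Dart} {T1 T2 : α → List (ℕ × ℕ)}
    {p q : α → ℕ × ℕ} (hL1 : PT L1) (hL2 : PT L2) (h1 : PT T1) (h2 : PT T2) (hp : PT p)
    (hq : PT q) : PT fun a => stepb (L1 a) (L2 a) (T1 a) (T2 a) (p a) (q a) := by
  unfold stepb
  fun_prop

@[fun_prop] lemma pt_pairE {V : α → List ℕ} {L1 L2 : α → List Dart} {T1 T2 : α → List (ℕ × ℕ)}
    (hV : PT V) (hL1 : PT L1) (hL2 : PT L2) (h1 : PT T1) (h2 : PT T2) :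
    PT fun a => pairE (V a) (L1 a) (L2 a) (T1 a) (T2 a) := by
  refine PT.filter (f := fun a (e : (ℕ × ℕ) × (ℕ × ℕ)) =>
    stepb (L1 a) (L2 a) (T1 a) (T2 a) e.1 e.2) (by fun_prop) ?_
  exact PT.product (PT.product hV hV) (PT.product hV hV)

@[fun_prop] lemma pt_core {V : α → List ℕ} {L1 L2 : α → List Dart} {T1 T2 : α → List (ℕ × ℕ)}
    {s t : α → ℕ} (hV : PT V) (hL1 : PT L1) (hL2 : PT L2) (h1 : PT T1) (h2 : PT T2)
    (hs : PT s) (ht : PT t) :
    PT fun a => core (V a) (L1 a) (L2 a) (T1 a) (T2 a) (s a) (t a) := by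
  refine PT.any (f := fun a (q : ℕ × ℕ) =>
    (decide (lv (T1 a) (T2 a) q.1 = 0) && decide (lv (T1 a) (T2 a) q.2 = 0)) &&
    (hypb (levb (L1 a) (T1 a) (T2 a) 0) (s a) q.1 q.2 (s a) &&
      decide ((t a, t a) ∈ reach (pairE (V a) (L1 a) (L2 a) (T1 a) (T2 a)) q))) ?_
    (PT.product hV hV)
  refine PT.and (PT.and (PT.decide_eq (by fun_prop) (by fun_prop))
    (PT.decide_eq (by fun_prop) (by fun_prop))) (PT.and (by fun_prop) ?_)
  exact (PT.decide_reach
    (E := fun p : α × ℕ × ℕ => pairE (V p.1) (L1 p.1) (L2 p.1) (T1 p.1) (T2 p.1))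
    (x := fun p => p.2) (y := fun p => (t p.1, t p.1)) (by fun_prop) (by fun_prop)
    (by fun_prop)).congr fun p => decide_eq_decide.2 Iff.rfl

@[fun_prop] lemma pt_verts {D : α → List Dart} {s : α → ℕ} (hD : PT D) (hs : PT s) :
    PT fun a => verts (D a) (s a) := by
  refine PT.cons hs (PT.append ?_ ?_)
  · exact PT.map (f := fun (_ : α) (d : Dart) => d.2.2.1) (by fun_prop) hD
  · exact PT.map (f := fun (_ : α) (d : Dart) => d.2.2.2.1) (by fun_prop) hD

@[fun_prop] lemma pt_algoT {D : α → List Dart} {T1 T2 : α → List (ℕ × ℕ)} {s t : α → ℕ}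
    (hD : PT D) (h1 : PT T1) (h2 : PT T2) (hs : PT s) (ht : PT t) :
    PT fun a => algoT (D a) (T1 a) (T2 a) (s a) (t a) := by
  refine PT.or (by fun_prop) (PT.or (by fun_prop) ?_)
  refine pt_core (by fun_prop) ?_ ?_ h1 h2 hs ht
  · exact PT.filter (f := fun a (d : Dart) => x1b (T1 a) (T2 a) d) (by fun_prop) hD
  · exact PT.filter (f := fun a (d : Dart) => x2b (T1 a) (T2 a) d) (by fun_prop) hD

@[fun_prop] lemma pt_algo {D : α → List Dart} {s t : α → ℕ} (hD : PT D) (hs : PT s) (ht : PT t) :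
    PT fun a => algo (D a) (s a) (t a) := by
  refine pt_algoT hD (pt_dijk ?_ hs) (pt_dijk ?_ hs) hs ht
  · exact PT.map (f := fun (_ : α) (d : Dart) => arc d) (by fun_prop) hD
  · exact PT.map (f := fun (_ : α) (d : Dart) => swp (arc d)) (by fun_prop) hD

end Pool.Agent.MixedOrient
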