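import Pool.Agent.Lib.MixedOrient.Defs

/-!
# Walks, distances and the algorithm of Dijkstra
-/

set_option autoImplicit false

namespace Pool.Agent.MixedOrient

section walk

variable {W : Type*} [AddCommMonoid W] {C C' : Set (ℕ × ℕ × W)} {x y z : ℕ} {w w' l : W}

lemma Walk.trans (h : Walk C x y w) (h' : Walk C y z w') : Walk C x z (w + w') := by
  induction h with
  | nil x => rwa [zero_add]
  | cons hl _ ih => rw [add_assoc]; exact Walk.cons hl (ih h')

lemma Walk.mono (hC : C ⊆ C') (h : Walk C x y w) : Walk C' x y w := by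
  induction h with
  | nil x => exact Walk.nil x
  | cons hl _ ih => exact Walk.cons (hC hl) ih

lemma Walk.single (hl : (x, y, l) ∈ C) : Walk C x y l := by
  have := Walk.cons hl (Walk.nil y)
  rwa [add_zero] at this

lemma Walk.snoc (h : Walk C x y w) (hl : (y, z, l) ∈ C) : Walk C x z (w + l) :=
  h.trans (Walk.single hl)

lemma Walk.swap (h : Walk (swp '' C) x y w) : Walk C y x w := by
  induction h with
  | nil x => exact Walk.nil x
  | cons hl _ ih =>
    obtain ⟨e, he, h2⟩ := hl
    obtain ⟨a, b, c⟩ := e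
    simp only [swp, Prod.mk.injEq] at h2
    obtain ⟨rfl, rfl, rfl⟩ := h2
    rw [add_comm]
    exact ih.snoc he

lemma swp_swp {W : Type*} (e : ℕ × ℕ × W) : swp (swp e) = e := rfl

lemma swp_image_swp {W : Type*} (C : Set (ℕ × ℕ × W)) : swp '' (swp '' C) = C := by
  rw [← Set.image_comp]
  have : swp ∘ swp = (id : ℕ × ℕ × W → ℕ × ℕ × W) := rfl
  rw [this, Set.image_id]

lemma walk_swap : Walk (swp '' C) x y w ↔ Walk C y x w := by
  refine ⟨Walk.swap, fun h => ?_⟩
  apply Walk.swap
  rwa [swp_image_swp]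

end walk

/-- `v` is the distance from `x` to `y`. -/
def IsDist {W : Type*} [Zero W] [Add W] [LE W] (C : Set (ℕ × ℕ × W)) (x y : ℕ) (v : W) : Prop :=
  Walk C x y v ∧ ∀ w, Walk C x y w → v ≤ w

lemma IsDist.unique {W : Type*} [Zero W] [Add W] [PartialOrder W] {C : Set (ℕ × ℕ × W)} {x y : ℕ}
    {v v' : W} (h : IsDist C x y v) (h' : IsDist C x y v') : v = v' :=
  le_antisymm (h.2 _ h'.1) (h'.2 _ h.1)

lemma exists_isDist {C : Set (ℕ × ℕ × ℕ)} {x y w : ℕ} (h : Walk C x y w) :
    ∃ v, IsDist C x y v := by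
  classical
  have h1 : ∃ w, Walk C x y w := ⟨w, h⟩
  exact ⟨Nat.find h1, Nat.find_spec h1, fun w hw => Nat.find_min' h1 hw⟩

/-! ### Dijkstra -/

/-- The candidates for the next vertex. -/
def cands (C : List (ℕ × ℕ × ℕ)) (T : List (ℕ × ℕ)) : List (ℕ × ℕ) :=
  C.flatMap fun e => match T.lookup e.1 with
    | none => []
    | some v => bif (T.lookup e.2.1).isSome then [] else [(e.2.1, v + e.2.2)]

/-- The best candidate. -/
def best (L : List (ℕ × ℕ)) : Option (ℕ × ℕ) :=
  L.find? fun c => L.all fun c' => decide (c.2 ≤ c'.2)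

/-- One step of the algorithm. -/
def dstep (C : List (ℕ × ℕ × ℕ)) (T : List (ℕ × ℕ)) : List (ℕ × ℕ) :=
  match best (cands C T) with
  | none => T
  | some c => c :: T

/-- The table of the distances from `s`. -/
def dijk (C : List (ℕ × ℕ × ℕ)) (s : ℕ) : List (ℕ × ℕ) := (dstep C)^[C.length] [(s, 0)]

lemma mem_cands {C : List (ℕ × ℕ × ℕ)} {T : List (ℕ × ℕ)} {c : ℕ × ℕ} :
    c ∈ cands C T ↔ ∃ e ∈ C, ∃ v, T.lookup e.1 = some v ∧ T.lookup e.2.1 = none ∧
      c = (e.2.1, v + e.2.2) := by
  unfold cands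
  rw [List.mem_flatMap]
  refine exists_congr fun e => and_congr_right fun _ => ?_
  cases h : T.lookup e.1 with
  | none => simp
  | some v =>
    cases h2 : T.lookup e.2.1 with
    | none => simp
    | some v' => simp

lemma best_some {L : List (ℕ × ℕ)} {c : ℕ × ℕ} (h : best L = some c) :
    c ∈ L ∧ ∀ c' ∈ L, c.2 ≤ c'.2 := by
  unfold best at h
  refine ⟨List.mem_of_find?_eq_some h, ?_⟩
  have := List.find?_some h
  rw [List.all_eq_true] at this
  intro c' hc'
  simpa using this c' hc'

lemma exists_min (L : List (ℕ × ℕ)) : L ≠ [] → ∃ c ∈ L, ∀ c' ∈ L, c.2 ≤ c'.2 := by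
  induction L with
  | nil => intro h; exact absurd rfl h
  | cons a L ih =>
    intro _
    by_cases hL : L = []
    · subst hL
      exact ⟨a, by simp, by simp⟩
    · obtain ⟨c, hc, hc'⟩ := ih hL
      by_cases h : a.2 ≤ c.2
      · refine ⟨a, by simp, fun c' hc1 => ?_⟩
        rcases List.mem_cons.1 hc1 with rfl | h1
        · exact le_rfl
        · exact h.trans (hc' _ h1)
      · refine ⟨c, List.mem_cons_of_mem _ hc, fun c' hc1 => ?_⟩
        rcases List.mem_cons.1 hc1 with rfl | h1
        · omega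
        · exact hc' _ h1

lemma best_none {L : List (ℕ × ℕ)} (h : best L = none) : L = [] := by
  by_contra hL
  obtain ⟨c, hc, hc'⟩ := exists_min L hL
  unfold best at h
  rw [List.find?_eq_none] at h
  apply h c hc
  rw [List.all_eq_true]
  intro c' h'
  simpa using hc' c' h'

lemma lookup_cons' (c : ℕ × ℕ) (T : List (ℕ × ℕ)) (x : ℕ) :
    (c :: T).lookup x = if x = c.1 then some c.2 else T.lookup x := by
  obtain ⟨a, b⟩ := c
  rw [List.lookup_cons]
  by_cases h : x = a
  · simp [h]
  · have : (x == a) = false := by simpa using h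
    simp [this, h]

/-- The invariant. -/
structure DInv (C : Set (ℕ × ℕ × ℕ)) (s : ℕ) (T : List (ℕ × ℕ)) : Prop where
  base : T.lookup s = some 0
  ok : ∀ x v, T.lookup x = some v → IsDist C s x v

lemma exit {C : List (ℕ × ℕ × ℕ)} {s : ℕ} {T : List (ℕ × ℕ)}
    (hT : DInv {e | e ∈ C} s T) {x y w : ℕ} (h : Walk {e | e ∈ C} x y w) :
    ∀ v, T.lookup x = some v → T.lookup y = none → ∃ c ∈ cands C T, c.2 ≤ v + w := by
  induction h with
  | nil x => intro v h1 h2; rw [h1] at h2; cases h2
  | @cons x y z l w hl _ ih =>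
    intro v h1 h2
    cases h3 : T.lookup y with
    | none =>
      exact ⟨(y, v + l), mem_cands.2 ⟨(x, y, l), hl, v, h1, h3, rfl⟩,
        by show v + l ≤ v + (l + w); omega⟩
    | some v' =>
      obtain ⟨c, hc, hc'⟩ := ih v' h3 h2
      have h4 : v' ≤ v + l := (hT.ok y v' h3).2 _ ((hT.ok x v h1).1.snoc hl)
      exact ⟨c, hc, by omega⟩

lemma DInv.step {C : List (ℕ × ℕ × ℕ)} {s : ℕ} {T : List (ℕ × ℕ)}
    (hT : DInv {e | e ∈ C} s T) : DInv {e | e ∈ C} s (dstep C T) := by
  unfold dstep
  cases h : best (cands C T) with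
  | none => exact hT
  | some c =>
    obtain ⟨h1, h2⟩ := best_some h
    obtain ⟨e, he, v, h3, h4, h5⟩ := mem_cands.1 h1
    have hne : s ≠ c.1 := by
      intro h6
      rw [h5] at h6
      rw [← h6, hT.base] at h4
      cases h4
    refine ⟨?_, ?_⟩
    · simp only
      rw [lookup_cons', if_neg hne]
      exact hT.base
    · intro x v' hx
      simp only at hx
      rw [lookup_cons'] at hx
      by_cases hxc : x = c.1
      · rw [if_pos hxc] at hx
        obtain rfl : c.2 = v' := Option.some_inj.1 hx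
        rw [hxc]
        constructor
        · rw [h5]
          exact (hT.ok _ _ h3).1.snoc he
        · intro w hw
          have h6 : T.lookup c.1 = none := by rw [h5]; exact h4
          obtain ⟨c', hc', hc2⟩ := exit hT hw 0 hT.base h6
          have := h2 c' hc'
          omega
      · rw [if_neg hxc] at hx
        exact hT.ok x v' hx

/-- The number of arcs whose head has not been reached. -/
def mu (C : List (ℕ × ℕ × ℕ)) (T : List (ℕ × ℕ)) : ℕ :=
  C.countP fun e => (T.lookup e.2.1).isNone

lemma countP_lt {α : Type*} (p q : α → Bool) (l : List α) (h : ∀ a ∈ l, p a = true → q a = true)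
    (h' : ∃ a ∈ l, p a = false ∧ q a = true) : l.countP p < l.countP q := by
  induction l with
  | nil => obtain ⟨a, ha, -⟩ := h'; simp at ha
  | cons b l ih =>
    rw [List.countP_cons, List.countP_cons]
    have hb := h b (by simp)
    have hl : ∀ a ∈ l, p a = true → q a = true := fun a ha => h a (by simp [ha])
    have hle : l.countP p ≤ l.countP q := List.countP_mono_left hl
    obtain ⟨a, ha, ha1, ha2⟩ := h'
    rcases List.mem_cons.1 ha with rfl | ha
    · simp [ha1, ha2]; omega
    · have := ih hl ⟨a, ha, ha1, ha2⟩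
      cases hp : p b
      · simp; omega
      · simp [hb hp]; omega

lemma mu_step {C : List (ℕ × ℕ × ℕ)} {T : List (ℕ × ℕ)} (h : cands C T ≠ []) :
    mu C (dstep C T) < mu C T := by
  unfold dstep
  cases hb : best (cands C T) with
  | none => exact absurd (best_none hb) h
  | some c =>
    obtain ⟨h1, -⟩ := best_some hb
    obtain ⟨e, he, v, h3, h4, h5⟩ := mem_cands.1 h1
    simp only
    unfold mu
    apply countP_lt
    · intro a _ ha
      rw [lookup_cons'] at ha
      by_cases hac : a.2.1 = c.1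
      · rw [if_pos hac] at ha; simp at ha
      · rwa [if_neg hac] at ha
    · refine ⟨e, he, ?_, ?_⟩
      · rw [lookup_cons', h5, if_pos rfl]; rfl
      · rw [h4]; rfl

lemma dstep_eq {C : List (ℕ × ℕ × ℕ)} {T : List (ℕ × ℕ)} (h : cands C T = []) :
    dstep C T = T := by
  unfold dstep
  rw [h]; rfl

lemma iter_aux (C : List (ℕ × ℕ × ℕ)) (s n : ℕ) : DInv {e | e ∈ C} s ((dstep C)^[n] [(s, 0)]) ∧
    (cands C ((dstep C)^[n] [(s, 0)]) = [] ∨ mu C ((dstep C)^[n] [(s, 0)]) + n ≤ C.length) := by
  induction n with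
  | zero =>
    refine ⟨⟨?_, ?_⟩, Or.inr ?_⟩
    · simp
    · intro x v hx
      simp only [Function.iterate_zero, id_eq, lookup_cons'] at hx
      by_cases h : x = s
      · rw [if_pos h] at hx
        obtain rfl : 0 = v := Option.some_inj.1 hx
        rw [h]
        exact ⟨Walk.nil s, fun w _ => Nat.zero_le _⟩
      · rw [if_neg h] at hx
        simp at hx
    · rw [add_zero]
      exact List.countP_le_length
  | succ n ih =>
    rw [Function.iterate_succ_apply']
    refine ⟨ih.1.step, ?_⟩
    rcases ih.2 with h | h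
    · left
      rw [dstep_eq h]; exact h
    · by_cases hc : cands C ((dstep C)^[n] [(s, 0)]) = []
      · left
        rw [dstep_eq hc]; exact hc
      · right
        have := mu_step hc
        omega

/-- The table is right. -/
structure Good (C : Set (ℕ × ℕ × ℕ)) (s : ℕ) (T : List (ℕ × ℕ)) : Prop where
  base : T.lookup s = some 0
  some : ∀ x v, T.lookup x = some v → IsDist C s x v
  none : ∀ x, T.lookup x = none → ∀ w, ¬ Walk C s x w

/-- Correctness of the algorithm of Dijkstra. -/
theorem dijk_good (C : List (ℕ × ℕ × ℕ)) (s : ℕ) : Good {e | e ∈ C} s (dijk C s) := by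
  obtain ⟨h1, h2⟩ := iter_aux C s C.length
  refine ⟨h1.base, h1.ok, ?_⟩
  have h3 : cands C (dijk C s) = [] := by
    rcases h2 with h2 | h2
    · exact h2
    · by_contra hc
      have := mu_step hc
      have h4 : mu C (dijk C s) + C.length ≤ C.length := h2
      omega
  intro x hx w hw
  obtain ⟨c, hc, -⟩ := exit (T := dijk C s) h1 hw 0 h1.base hx
  rw [h3] at hc
  simp at hc

lemma Good.iff {C : Set (ℕ × ℕ × ℕ)} {s : ℕ} {T : List (ℕ × ℕ)} (h : Good C s T) {x v : ℕ} :
    T.lookup x = Option.some v ↔ IsDist C s x v := by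
  refine ⟨h.some x v, fun h1 => ?_⟩
  cases h2 : T.lookup x with
  | none => exact absurd h1.1 (h.none x h2 _)
  | some v' => rw [(h.some x v' h2).unique h1]

end Pool.Agent.MixedOrient
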