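import Pool.Agent.Lib.MixedOrient.Level
import Pool.Agent.Lib.MixedOrient.Dist

/-!
# Tight darts
-/

set_option autoImplicit false

namespace Pool.Agent.MixedOrient

/-- Darts: index of the edge, direction, tail, head, length. -/
abbrev Dart := ℕ × Bool × ℕ × ℕ × ℕ

/-- The opposite dart. -/
def dopp (d : Dart) : Dart := (d.1, !d.2.1, d.2.2.2.1, d.2.2.1, d.2.2.2.2)

/-- The system of darts. -/
def dg : DG ℕ Dart where
  src d := d.2.2.1
  tgt d := d.2.2.2.1
  opp := dopp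
  opp_opp := by rintro ⟨i, b, x, y, l⟩; simp [dopp]
  src_opp _ := rfl
  tgt_opp _ := rfl
  opp_ne := by rintro ⟨i, b, x, y, l⟩ h; simp [dopp] at h

/-- The arc of a dart. -/
def arc (d : Dart) : ℕ × ℕ × ℕ := d.2.2

/-- The value in a table. -/
def tv (T : List (ℕ × ℕ)) (x : ℕ) : ℕ := (T.lookup x).getD 0

/-- The entry exists. -/
def tk (T : List (ℕ × ℕ)) (x : ℕ) : Bool := (T.lookup x).isSome

lemma tk_iff {T : List (ℕ × ℕ)} {x : ℕ} : tk T x = true ↔ T.lookup x = some (tv T x) := by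
  unfold tk tv
  cases T.lookup x <;> simp

lemma tk_of {T : List (ℕ × ℕ)} {x v : ℕ} (h : T.lookup x = some v) : tk T x = true ∧ tv T x = v := by
  unfold tk tv
  rw [h]; simp

lemma arc_eq (d : Dart) : arc d = (dg.src d, dg.tgt d, d.2.2.2.2) := rfl

/-- Forward tight darts. -/
def Ti1 (D : Set Dart) (T : List (ℕ × ℕ)) : Set Dart :=
  {d | d ∈ D ∧ tk T (dg.src d) = true ∧ tk T (dg.tgt d) = true ∧
    tv T (dg.tgt d) = tv T (dg.src d) + d.2.2.2.2}

/-- Backward tight darts. -/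
def Ti2 (D : Set Dart) (T : List (ℕ × ℕ)) : Set Dart :=
  {d | d ∈ D ∧ tk T (dg.src d) = true ∧ tk T (dg.tgt d) = true ∧
    tv T (dg.src d) = tv T (dg.tgt d) + d.2.2.2.2}

lemma walk_of_dart {F : Set Dart} {d : Dart} (hd : d ∈ F) :
    (dg.src d, dg.tgt d, d.2.2.2.2) ∈ arc '' F := ⟨d, hd, rfl⟩

section

variable {D : Set Dart} {T1 T2 : List (ℕ × ℕ)} {s : ℕ}

lemma tight1_walk (h1 : Good (arc '' D) s T1) {F : Set Dart} {x : ℕ}
    (h : dg.R (Ti1 D T1 ∩ F) s x) : Walk (arc '' F) s x (tv T1 x) ∧ tk T1 x = true := by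
  induction h with
  | refl =>
    obtain ⟨a, b⟩ := tk_of h1.base
    rw [b]
    exact ⟨Walk.nil s, a⟩
  | tail _ hstep ih =>
    obtain ⟨d, hd, h2, h3⟩ := hstep
    subst h2
    subst h3
    refine ⟨?_, hd.1.2.2.1⟩
    rw [hd.1.2.2.2]
    exact ih.1.snoc (walk_of_dart hd.2)

lemma tight2_walk (h2 : Good (swp '' (arc '' D)) s T2) {F : Set Dart} {x : ℕ}
    (h : dg.R (Ti2 D T2 ∩ F) x s) : Walk (arc '' F) x s (tv T2 x) ∧ tk T2 x = true := by
  induction h using Relation.ReflTransGen.head_induction_on with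
  | refl =>
    obtain ⟨a, b⟩ := tk_of h2.base
    rw [b]
    exact ⟨Walk.nil s, a⟩
  | head hstep _ ih =>
    obtain ⟨d, hd, h3, h4⟩ := hstep
    subst h3
    subst h4
    refine ⟨?_, hd.1.2.1⟩
    rw [hd.1.2.2.2, add_comm]
    exact Walk.cons (walk_of_dart hd.2) ih.1

lemma walk_tight1 (h1 : Good (arc '' D) s T1) {F : Set Dart} (hF : F ⊆ D) {x t w : ℕ}
    (h : Walk (arc '' F) x t w) : tk T1 x = true → IsDist (arc '' D) s t (tv T1 x + w) →
      dg.R (Ti1 D T1 ∩ F) x t := by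
  induction h with
  | nil x => intro _ _; exact DG.R.refl _ _
  | @cons x y z l w hl hr ih =>
    intro hx ht
    obtain ⟨d, hd, hd2⟩ := hl
    rw [arc_eq] at hd2
    simp only [Prod.mk.injEq] at hd2
    obtain ⟨rfl, rfl, rfl⟩ := hd2
    have hx' := h1.some _ _ (tk_iff.1 hx)
    have hmono : arc '' F ⊆ arc '' D := Set.image_mono hF
    have hwy : Walk (arc '' D) s (dg.tgt d) (tv T1 (dg.src d) + d.2.2.2.2) :=
      hx'.1.snoc (walk_of_dart (hF hd))
    have hy : tk T1 (dg.tgt d) = true := by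
      cases hc : tk T1 (dg.tgt d) with
      | true => rfl
      | false =>
        exfalso
        refine h1.none (dg.tgt d) ?_ _ hwy
        unfold tk at hc
        simpa using hc
    have hy' := h1.some _ _ (tk_iff.1 hy)
    have h3 := ht.2 _ (hy'.1.trans (hr.mono hmono))
    have h4 := hy'.2 _ hwy
    have h5 : tv T1 (dg.tgt d) = tv T1 (dg.src d) + d.2.2.2.2 := by omega
    have h6 : dg.R (Ti1 D T1 ∩ F) (dg.src d) (dg.tgt d) :=
      DG.R.single ⟨⟨hF hd, hx, hy, h5⟩, hd⟩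
    refine h6.trans (ih hy ?_)
    rw [h5, add_assoc]
    exact ht

lemma walk_tight2 (h2 : Good (swp '' (arc '' D)) s T2) {F : Set Dart} (hF : F ⊆ D) {x w : ℕ}
    (h : Walk (arc '' F) x s w) : IsDist (arc '' D) x s w → dg.R (Ti2 D T2 ∩ F) x s := by
  have key : ∀ x y w, Walk (arc '' F) x y w → y = s → IsDist (arc '' D) x s w →
      dg.R (Ti2 D T2 ∩ F) x s := by
    intro x y w h
    induction h with
    | nil x => intro hx _; rw [hx]; exact DG.R.refl _ _
    | @cons x y z l w hl hr ih =>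
      intro hz ht
      subst hz
      obtain ⟨d, hd, hd2⟩ := hl
      rw [arc_eq] at hd2
      simp only [Prod.mk.injEq] at hd2
      obtain ⟨rfl, rfl, rfl⟩ := hd2
      have hmono : arc '' F ⊆ arc '' D := Set.image_mono hF
      have hrD := hr.mono hmono
      have hy' : IsDist (arc '' D) (dg.tgt d) z w := by
        refine ⟨hrD, fun w' hw' => ?_⟩
        have := ht.2 _ (Walk.cons (walk_of_dart (hF hd)) hw')
        omega
      have h3 : IsDist (swp '' (arc '' D)) z (dg.tgt d) w :=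
        ⟨walk_swap.2 hy'.1, fun w' hw' => hy'.2 _ (walk_swap.1 hw')⟩
      have h4 : IsDist (swp '' (arc '' D)) z (dg.src d) (d.2.2.2.2 + w) :=
        ⟨walk_swap.2 ht.1, fun w' hw' => ht.2 _ (walk_swap.1 hw')⟩
      obtain ⟨a1, a2⟩ := tk_of (h2.iff.2 h3)
      obtain ⟨b1, b2⟩ := tk_of (h2.iff.2 h4)
      have h6 : dg.R (Ti2 D T2 ∩ F) (dg.src d) (dg.tgt d) :=
        DG.R.single ⟨⟨hF hd, b1, a1, by rw [a2, b2, add_comm]⟩, hd⟩
      exact h6.trans (ih rfl hy')
  exact key x s w h rfl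

/-- The condition that all distances at the ends of the dart are finite. -/
def okb (T1 T2 : List (ℕ × ℕ)) (d : Dart) : Bool :=
  (tk T1 (dg.src d) && tk T1 (dg.tgt d)) && (tk T2 (dg.src d) && tk T2 (dg.tgt d))

/-- Test for the first set of darts. -/
def x1b (T1 T2 : List (ℕ × ℕ)) (d : Dart) : Bool :=
  okb T1 T2 d && decide (tv T1 (dg.tgt d) = tv T1 (dg.src d) + d.2.2.2.2)

/-- Test for the second set of darts. -/
def x2b (T1 T2 : List (ℕ × ℕ)) (d : Dart) : Bool :=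
  okb T1 T2 d && decide (tv T2 (dg.src d) = tv T2 (dg.tgt d) + d.2.2.2.2)

/-- The first set of darts. -/
def X1 (D : Set Dart) (T1 T2 : List (ℕ × ℕ)) : Set Dart := {d | d ∈ D ∧ x1b T1 T2 d = true}

/-- The second set of darts. -/
def X2 (D : Set Dart) (T1 T2 : List (ℕ × ℕ)) : Set Dart := {d | d ∈ D ∧ x2b T1 T2 d = true}

/-- The potential. -/
def lv (T1 T2 : List (ℕ × ℕ)) (x : ℕ) : ℕ := tv T1 x + tv T2 x

lemma mem_X1 {d : Dart} : d ∈ X1 D T1 T2 ↔ d ∈ Ti1 D T1 ∧ tk T2 (dg.src d) = true ∧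
    tk T2 (dg.tgt d) = true := by
  simp only [X1, x1b, okb, Ti1, Set.mem_setOf_eq, Bool.and_eq_true, decide_eq_true_eq]
  tauto

lemma mem_X2 {d : Dart} : d ∈ X2 D T1 T2 ↔ d ∈ Ti2 D T2 ∧ tk T1 (dg.src d) = true ∧
    tk T1 (dg.tgt d) = true := by
  simp only [X2, x2b, okb, Ti2, Set.mem_setOf_eq, Bool.and_eq_true, decide_eq_true_eq]
  tauto

lemma le1 (h1 : Good (arc '' D) s T1) {d : Dart} (hd : d ∈ D) (ha : tk T1 (dg.src d) = true)
    (hb : tk T1 (dg.tgt d) = true) : tv T1 (dg.tgt d) ≤ tv T1 (dg.src d) + d.2.2.2.2 :=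
  (h1.some _ _ (tk_iff.1 hb)).2 _ ((h1.some _ _ (tk_iff.1 ha)).1.snoc (walk_of_dart hd))

lemma le2 (h2 : Good (swp '' (arc '' D)) s T2) {d : Dart} (hd : d ∈ D)
    (ha : tk T2 (dg.src d) = true) (hb : tk T2 (dg.tgt d) = true) :
    tv T2 (dg.src d) ≤ tv T2 (dg.tgt d) + d.2.2.2.2 := by
  refine (h2.some _ _ (tk_iff.1 ha)).2 _ ((h2.some _ _ (tk_iff.1 hb)).1.snoc ?_)
  exact ⟨_, walk_of_dart hd, rfl⟩

lemma lev (h1 : Good (arc '' D) s T1) (h2 : Good (swp '' (arc '' D)) s T2) :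
    dg.Lev (X1 D T1 T2) (X2 D T1 T2) (lv T1 T2) := by
  refine ⟨fun d hd => ?_, fun d hd => ?_, fun d hd => ?_⟩
  · obtain ⟨⟨a1, a2, a3, a4⟩, a5, a6⟩ := mem_X1.1 hd
    have := le2 h2 a1 a5 a6
    unfold lv; omega
  · obtain ⟨⟨a1, a2, a3, a4⟩, a5, a6⟩ := mem_X2.1 hd
    have := le1 h1 a1 a5 a6
    unfold lv; omega
  · unfold lv at hd
    rw [mem_X1, mem_X2]
    constructor
    · rintro ⟨⟨a1, a2, a3, a4⟩, a5, a6⟩
      exact ⟨⟨a1, a5, a6, by omega⟩, a2, a3⟩
    · rintro ⟨⟨a1, a2, a3, a4⟩, a5, a6⟩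
      exact ⟨⟨a1, a5, a6, by omega⟩, a2, a3⟩

lemma tk_of_walk1 (h1 : Good (arc '' D) s T1) {x w : ℕ} (h : Walk (arc '' D) s x w) :
    tk T1 x = true := by
  cases hc : tk T1 x with
  | true => rfl
  | false =>
    exfalso
    refine h1.none x ?_ _ h
    unfold tk at hc
    simpa using hc

lemma tk_of_walk2 (h2 : Good (swp '' (arc '' D)) s T2) {x w : ℕ} (h : Walk (arc '' D) x s w) :
    tk T2 x = true := by
  cases hc : tk T2 x with
  | true => rfl
  | false =>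
    exfalso
    refine h2.none x ?_ _ (walk_swap.2 h)
    unfold tk at hc
    simpa using hc

lemma walk_of_R {F : Set Dart} {x y : ℕ} (h : dg.R F x y) : ∃ w, Walk (arc '' F) x y w := by
  induction h with
  | refl => exact ⟨0, Walk.nil _⟩
  | tail _ hstep ih =>
    obtain ⟨d, hd, h2, h3⟩ := hstep
    subst h2
    subst h3
    obtain ⟨w, hw⟩ := ih
    exact ⟨_, hw.snoc (walk_of_dart hd)⟩

lemma R_X1 (h2 : Good (swp '' (arc '' D)) s T2) {F : Set Dart} {x t w : ℕ}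
    (hts : Walk (arc '' D) t s w) (h : dg.R (Ti1 D T1 ∩ F) x t) :
    dg.R (X1 D T1 T2 ∩ F) x t := by
  induction h using Relation.ReflTransGen.head_induction_on with
  | refl => exact DG.R.refl _ _
  | head hstep hr ih =>
    obtain ⟨d, hd, h3, h4⟩ := hstep
    subst h3
    subst h4
    obtain ⟨w', hw'⟩ := walk_of_R (F := D) (DG.R.mono (G := dg) hr (fun e he => he.1.1))
    have hb := tk_of_walk2 h2 (hw'.trans hts)
    have ha := tk_of_walk2 h2 (Walk.cons (walk_of_dart hd.1.1) (hw'.trans hts))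
    have h6 : dg.R (X1 D T1 T2 ∩ F) (dg.src d) (dg.tgt d) :=
      DG.R.single ⟨mem_X1.2 ⟨hd.1, ha, hb⟩, hd.2⟩
    exact h6.trans ih

lemma R_X2 (h1 : Good (arc '' D) s T1) {F : Set Dart} {x t w : ℕ}
    (hst : Walk (arc '' D) s t w) (h : dg.R (Ti2 D T2 ∩ F) t x) :
    dg.R (X2 D T1 T2 ∩ F) t x := by
  induction h with
  | refl => exact DG.R.refl _ _
  | tail hr hstep ih =>
    obtain ⟨d, hd, h3, h4⟩ := hstep
    subst h3
    subst h4
    obtain ⟨w', hw'⟩ := walk_of_R (F := D) (DG.R.mono (G := dg) hr (fun e he => he.1.1))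
    have ha := tk_of_walk1 h1 (hst.trans hw')
    have hb := tk_of_walk1 h1 ((hst.trans hw').snoc (walk_of_dart hd.1.1))
    have h6 : dg.R (X2 D T1 T2 ∩ F) (dg.src d) (dg.tgt d) :=
      DG.R.single ⟨mem_X2.2 ⟨hd.1, ha, hb⟩, hd.2⟩
    exact ih.trans h6

/-- Preservation of both distances by a set of darts. -/
def Pres (D F : Set Dart) (s t : ℕ) : Prop :=
  (∀ n, IsDist (arc '' D) s t n → Walk (arc '' F) s t n) ∧
  (∀ n, IsDist (arc '' D) t s n → Walk (arc '' F) t s n)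

lemma Pres.mono {F F' : Set Dart} {t : ℕ} (h : Pres D F s t) (hF : F ⊆ F') : Pres D F' s t :=
  ⟨fun n hn => (h.1 n hn).mono (Set.image_mono hF), fun n hn => (h.2 n hn).mono (Set.image_mono hF)⟩

/-- The case in which one of the distances is infinite. -/
lemma pres_of_none (hD : D.Finite) (h1 : Good (arc '' D) s T1)
    (h2 : Good (swp '' (arc '' D)) s T2) {t : ℕ} (h : tk T1 t = false ∨ tk T2 t = false) :
    ∃ F ⊆ D, dg.Cons F ∧ Pres D F s t := by
  have n1 : tk T1 t = false → ∀ w, ¬ Walk (arc '' D) s t w := by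
    intro hc w hw
    rw [tk_of_walk1 h1 hw] at hc
    cases hc
  have n2 : tk T2 t = false → ∀ w, ¬ Walk (arc '' D) t s w := by
    intro hc w hw
    rw [tk_of_walk2 h2 hw] at hc
    cases hc
  by_cases c1 : tk T1 t = true
  · have c2 : tk T2 t = false := by
      rcases h with h | h
      · rw [c1] at h; cases h
      · exact h
    have hd := h1.some _ _ (tk_iff.1 c1)
    have hs := tk_of h1.base
    have hR : dg.R (Ti1 D T1 ∩ D) s t := by
      refine walk_tight1 h1 subset_rfl hd.1 hs.1 ?_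
      rw [hs.2, zero_add]
      exact hd
    obtain ⟨F, hF, hc, hr⟩ := DG.exists_cons (hD.subset Set.inter_subset_right) hR
    refine ⟨F, hF.trans Set.inter_subset_right, hc, ?_, fun n hn => absurd hn.1 (n2 c2 n)⟩
    intro n hn
    rw [hn.unique hd]
    exact (tight1_walk h1 (F := F) (hr.mono fun d hd => ⟨(hF hd).1, hd⟩)).1
  · have c1' : tk T1 t = false := by simpa using c1
    by_cases c2 : tk T2 t = true
    · have hd' := h2.some _ _ (tk_iff.1 c2)
      have hd : IsDist (arc '' D) t s (tv T2 t) :=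
        ⟨walk_swap.1 hd'.1, fun w hw => hd'.2 _ (walk_swap.2 hw)⟩
      have hR : dg.R (Ti2 D T2 ∩ D) t s := walk_tight2 h2 subset_rfl hd.1 hd
      obtain ⟨F, hF, hc, hr⟩ := DG.exists_cons (hD.subset Set.inter_subset_right) hR
      refine ⟨F, hF.trans Set.inter_subset_right, hc, fun n hn => absurd hn.1 (n1 c1' n), ?_⟩
      intro n hn
      rw [hn.unique hd]
      exact (tight2_walk h2 (F := F) (hr.mono fun d hd => ⟨(hF hd).1, hd⟩)).1
    · have c2' : tk T2 t = false := by simpa using c2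
      exact ⟨∅, Set.empty_subset _, fun d hd => absurd hd (Set.notMem_empty d),
        fun n hn => absurd hn.1 (n1 c1' n), fun n hn => absurd hn.1 (n2 c2' n)⟩

/-- The case in which both distances are finite. -/
theorem pres_iff (hD : D.Finite) (h1 : Good (arc '' D) s T1)
    (h2 : Good (swp '' (arc '' D)) s T2) {t : ℕ} (c1 : tk T1 t = true) (c2 : tk T2 t = true) :
    (∃ F ⊆ D, dg.Cons F ∧ Pres D F s t) ↔
      dg.PR (X1 D T1 T2) (X2 D T1 T2) (lv T1 T2) s (t, t) := by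
  have hd1 := h1.some _ _ (tk_iff.1 c1)
  have hd' := h2.some _ _ (tk_iff.1 c2)
  have hd2 : IsDist (arc '' D) t s (tv T2 t) :=
    ⟨walk_swap.1 hd'.1, fun w hw => hd'.2 _ (walk_swap.2 hw)⟩
  have hs1 := tk_of h1.base
  have hs2 := tk_of h2.base
  have hs : lv T1 T2 s = 0 := by unfold lv; rw [hs1.2, hs2.2]
  have f1 : (X1 D T1 T2).Finite := hD.subset fun d hd => hd.1
  have f2 : (X2 D T1 T2).Finite := hD.subset fun d hd => hd.1
  rw [← DG.level f1 f2 (lev h1 h2) hs]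
  constructor
  · rintro ⟨F, hF, hc, p1, p2⟩
    refine ⟨F, hc, ?_, ?_⟩
    · refine R_X1 h2 hd2.1 (walk_tight1 h1 hF (p1 _ hd1) hs1.1 ?_)
      rw [hs1.2, zero_add]
      exact hd1
    · exact R_X2 h1 hd1.1 (walk_tight2 h2 hF (p2 _ hd2) hd2)
  · rintro ⟨F, hc, r1, r2⟩
    refine ⟨F ∩ D, Set.inter_subset_right, fun d hd hd' => hc d hd.1 hd'.1, ?_, ?_⟩
    · intro n hn
      rw [hn.unique hd1]
      exact (tight1_walk h1 (F := F ∩ D) (r1.mono fun d hd =>
        ⟨(mem_X1.1 hd.1).1, hd.2, hd.1.1⟩)).1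
    · intro n hn
      rw [hn.unique hd2]
      exact (tight2_walk h2 (F := F ∩ D) (r2.mono fun d hd =>
        ⟨(mem_X2.1 hd.1).1, hd.2, hd.1.1⟩)).1

end

end Pool.Agent.MixedOrient
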