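import Mathlib

/-!
# Orientations of mixed graphs: the two-pair theorem
-/

set_option autoImplicit false

namespace Pool.Agent.MixedOrient

/-- Darts with sources, targets and opposites. -/
structure DG (V δ : Type*) where
  src : δ → V
  tgt : δ → V
  opp : δ → δ
  opp_opp : ∀ d, opp (opp d) = d
  src_opp : ∀ d, src (opp d) = tgt d
  tgt_opp : ∀ d, tgt (opp d) = src d
  opp_ne : ∀ d, opp d ≠ d

namespace DG

variable {V δ : Type*} (G : DG V δ)

/-- Reachability along the darts of `X`. -/
def R (X : Set δ) (x y : V) : Prop :=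
  Relation.ReflTransGen (fun x y => ∃ d ∈ X, G.src d = x ∧ G.tgt d = y) x y

variable {G}

lemma R.refl (X : Set δ) (x : V) : G.R X x x := Relation.ReflTransGen.refl

lemma R.trans {X : Set δ} {x y z : V} (h : G.R X x y) (h' : G.R X y z) : G.R X x z :=
  Relation.ReflTransGen.trans h h'

lemma R.mono' {X Y : Set δ} {x y : V} (h : G.R X x y) (hXY : X ⊆ Y) : G.R Y x y := by
  induction h with
  | refl => exact R.refl _ _
  | tail _ hstep ih =>
    obtain ⟨d, hd, h1⟩ := hstep
    exact Relation.ReflTransGen.tail ih ⟨d, hXY hd, h1⟩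

lemma R.mono {X Y : Set δ} {x y : V} (h : G.R X x y) (hXY : X ⊆ Y) : G.R Y x y := h.mono' hXY

lemma R.single {X : Set δ} {d : δ} (hd : d ∈ X) : G.R X (G.src d) (G.tgt d) :=
  Relation.ReflTransGen.single ⟨d, hd, rfl, rfl⟩

/-- Splitting a walk at the uses of `g`. -/
lemma R.split {X : Set δ} {x y : V} (g : δ) (h : G.R X x y) :
    G.R (X \ {g}) x y ∨ (G.R (X \ {g}) x (G.src g) ∧ G.R (X \ {g}) (G.tgt g) y) := by
  induction h with
  | refl => exact Or.inl (R.refl _ _)
  | tail _ hstep ih =>
    obtain ⟨d, hd, h1, h2⟩ := hstep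
    by_cases hdg : d = g
    · subst hdg
      rw [← h2]
      right
      rw [← h1] at ih
      rcases ih with ih | ih
      · exact ⟨ih, R.refl _ _⟩
      · exact ⟨ih.1, R.refl _ _⟩
    · have hs : G.R (X \ {g}) (G.src d) (G.tgt d) := R.single ⟨hd, hdg⟩
      rw [h1, h2] at hs
      rcases ih with ih | ih
      · exact Or.inl (ih.trans hs)
      · exact Or.inr ⟨ih.1, ih.2.trans hs⟩

/-- If every walk uses `g`, there is one whose two parts avoid `g` and its opposite. -/
lemma R.split2 {X : Set δ} {x y : V} {g : δ} (h : G.R X x y) (hn : ¬ G.R (X \ {g}) x y) :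
    G.R (X \ {g, G.opp g}) x (G.src g) ∧ G.R (X \ {g, G.opp g}) (G.tgt g) y := by
  obtain ⟨h1, h2⟩ := (h.split g).resolve_left hn
  have e : (X \ {g}) \ {G.opp g} = X \ {g, G.opp g} := by
    rw [Set.sdiff_sdiff]; congr 1
  constructor
  · rcases h1.split (G.opp g) with h3 | h3
    · rwa [e] at h3
    · exfalso
      rw [G.src_opp] at h3
      exact hn ((h3.1.mono Set.sdiff_subset).trans h2)
  · rcases h2.split (G.opp g) with h3 | h3
    · rwa [e] at h3
    · exfalso
      rw [G.tgt_opp] at h3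
      exact hn (h1.trans (h3.2.mono Set.sdiff_subset))

lemma mem_of_needed {X : Set δ} {x y : V} {g : δ} (h : G.R X x y) (hn : ¬ G.R (X \ {g}) x y) :
    g ∈ X := by
  by_contra hg
  rw [Set.sdiff_singleton_eq_self hg] at hn
  exact hn h

lemma R.avoid_opp {X : Set δ} {x y : V} {g : δ} (h : G.R X x y) (hn : ¬ G.R (X \ {g}) x y) :
    G.R (X \ {G.opp g}) x y := by
  have hg := mem_of_needed h hn
  obtain ⟨h1, h2⟩ := h.split2 hn
  have hs : G.R (X \ {G.opp g}) (G.src g) (G.tgt g) := R.single ⟨hg, (G.opp_ne g).symm⟩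
  have hsub : X \ {g, G.opp g} ⊆ X \ {G.opp g} := by
    intro d hd
    exact ⟨hd.1, fun h => hd.2 (Or.inr h)⟩
  exact ((h1.mono hsub).trans hs).trans (h2.mono hsub)

variable (G)

/-- The condition of the two-pair theorem. -/
def Hyp (X : Set δ) (a a' b b' : V) : Prop :=
  G.R X a a' ∧ G.R X b b' ∧
    ∀ f ∈ X, G.opp f ∈ X → G.R (X \ {f}) a a' ∨ G.R (X \ {G.opp f}) b b'

variable {G}

lemma Hyp.symm {X : Set δ} {a a' b b' : V} (h : G.Hyp X a a' b b') : G.Hyp X b b' a a' := by
  refine ⟨h.2.1, h.1, fun f hf hf' => ?_⟩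
  have := h.2.2 (G.opp f) hf' (by rwa [G.opp_opp])
  rw [G.opp_opp] at this
  exact this.symm

/-- If the first pair needs `e`, the opposite of `e` may be deleted. -/
lemma hyp_of_needed {X : Set δ} {a a' b b' : V} (h : G.Hyp X a a' b b') {e : δ}
    (he' : G.opp e ∈ X) (hn : ¬ G.R (X \ {e}) a a') : G.Hyp (X \ {G.opp e}) a a' b b' := by
  have he := mem_of_needed h.1 hn
  have hA := h.1.avoid_opp hn
  have hB : G.R (X \ {G.opp e}) b b' := (h.2.2 e he he').resolve_left hn
  refine ⟨hA, hB, fun f hf hf' => ?_⟩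
  have hfe' : f ≠ G.opp e := hf.2
  have hfe : f ≠ e := fun h1 => hf'.2 (by rw [h1]; rfl)
  by_contra hcon
  push Not at hcon
  obtain ⟨hc1, hc2⟩ := hcon
  have hAf : ¬ G.R (X \ {f}) a a' := by
    intro h1
    have h2 : ¬ G.R ((X \ {f}) \ {e}) a a' := fun h3 => hn (h3.mono (by
      intro d hd; exact ⟨hd.1.1, hd.2⟩))
    have h3 := h1.avoid_opp h2
    exact hc1 (h3.mono (by intro d hd; exact ⟨⟨hd.1.1, hd.2⟩, hd.1.2⟩))
  have hBf : G.R (X \ {G.opp f}) b b' := (h.2.2 f hf.1 hf'.1).resolve_left hAf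
  have hBf' : ¬ G.R ((X \ {G.opp f}) \ {G.opp e}) b b' := fun h1 => hc2 (h1.mono (by
    intro d hd; exact ⟨⟨hd.1.1, hd.2⟩, hd.1.2⟩))
  obtain ⟨b1, b2⟩ := hBf.split2 hBf'
  obtain ⟨b3, b4⟩ := hB.split2 hc2
  rw [G.src_opp] at b1 b3
  rw [G.tgt_opp] at b2 b4
  rw [G.opp_opp] at b1 b2 b3 b4
  obtain ⟨a1, a2⟩ := h.1.split2 hn
  by_cases hau : G.R ((X \ {e, G.opp e}) \ {f}) a (G.src e)
  · have hva : ¬ G.R ((X \ {e, G.opp e}) \ {f}) (G.tgt e) a' := by
      intro h1
      apply hAf
      have hs : G.R (X \ {f}) (G.src e) (G.tgt e) := R.single ⟨he, hfe.symm⟩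
      exact ((hau.mono (by intro d hd; exact ⟨hd.1.1, hd.2⟩)).trans hs).trans
        (h1.mono (by intro d hd; exact ⟨hd.1.1, hd.2⟩))
    obtain ⟨a3, -⟩ := a2.split2 hva
    apply hc2
    refine ((b1.mono ?_).trans (a3.mono ?_)).trans (b4.mono ?_)
    · intro d hd
      exact ⟨⟨hd.1.1, fun h1 => hd.2 (Or.inl h1)⟩, hd.1.2⟩
    · intro d hd
      exact ⟨⟨hd.1.1, fun h1 => hd.1.2 (Or.inr h1)⟩, fun h1 => hd.2 (Or.inr h1)⟩
    · intro d hd
      exact ⟨hd.1, fun h1 => hd.2 (Or.inl h1)⟩
  · obtain ⟨-, a3⟩ := a1.split2 hau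
    apply hc2
    refine ((b3.mono ?_).trans (a3.mono ?_)).trans (b2.mono ?_)
    · intro d hd
      exact ⟨hd.1, fun h1 => hd.2 (Or.inl h1)⟩
    · intro d hd
      exact ⟨⟨hd.1.1, fun h1 => hd.1.2 (Or.inr h1)⟩, fun h1 => hd.2 (Or.inr h1)⟩
    · intro d hd
      exact ⟨⟨hd.1.1, fun h1 => hd.2 (Or.inl h1)⟩, hd.1.2⟩

/-- The key contradiction when nothing is needed at `e`. -/
lemma key_false {X : Set δ} {a a' b b' : V} (h : G.Hyp X a a' b b') {e f g : δ} (he : e ∈ X)
    (he' : G.opp e ∈ X)
    (A1 : G.R (X \ {e}) a a') (A2 : G.R (X \ {G.opp e}) a a')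
    (B1 : G.R (X \ {e}) b b') (B2 : G.R (X \ {G.opp e}) b b')
    (hf : f ∈ X \ {e}) (hf' : G.opp f ∈ X \ {e})
    (F1 : ¬ G.R ((X \ {e}) \ {f}) a a') (F2 : ¬ G.R ((X \ {e}) \ {G.opp f}) b b')
    (hg : g ∈ X \ {G.opp e}) (hg' : G.opp g ∈ X \ {G.opp e})
    (G1 : ¬ G.R ((X \ {G.opp e}) \ {g}) a a') (G2 : ¬ G.R ((X \ {G.opp e}) \ {G.opp g}) b b')
    (hA : G.R (X \ {f}) a a') : False := by
  have hfe : f ≠ e := hf.2
  have hfe' : f ≠ G.opp e := fun h1 => hf'.2 (by rw [h1, G.opp_opp]; rfl)
  have hof : G.opp f ≠ f := G.opp_ne f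
  have hoe : G.opp e ≠ e := G.opp_ne e
  have hofe : G.opp f ≠ e := hf'.2
  have hofe' : G.opp f ≠ G.opp e := fun h1 => hfe (by rw [← G.opp_opp f, h1, G.opp_opp])
  have hge' : g ≠ G.opp e := hg.2
  have hge : g ≠ e := fun h1 => hg'.2 (by rw [h1]; rfl)
  have hoge' : G.opp g ≠ G.opp e := hg'.2
  have hoge : G.opp g ≠ e := fun h1 => hge' (by rw [← h1, G.opp_opp])
  have hog : G.opp g ≠ g := G.opp_ne g
  -- the set `W` and the region reachable in it
  set W : Set δ := X \ {e, f} with hW
  set Z : Set δ := X \ {e, G.opp e, f, G.opp f} with hZ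
  have hZW : Z ⊆ W := by intro d hd; simp only [hZ, hW] at hd ⊢; grind
  have hna' : ¬ G.R W a a' := fun h1 => F1 (h1.mono (by intro d hd; simp only [hW] at hd; grind))
  -- first use of `hA`
  have hA' : ¬ G.R ((X \ {f}) \ {e}) a a' := fun h1 => F1 (h1.mono (by intro d hd; grind))
  obtain ⟨a1, a2⟩ := hA.split2 hA'
  obtain ⟨a3, a4⟩ := A1.split2 F1
  have hu : G.R W a (G.src e) := a1.mono (by intro d hd; simp only [hW]; grind)
  have hv : ¬ G.R W a (G.tgt e) := fun h1 =>
    hna' (h1.trans (a2.mono (by intro d hd; simp only [hW]; grind)))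
  have hp : G.R W a (G.src f) := a3.mono (by intro d hd; simp only [hW]; grind)
  have hq : ¬ G.R W a (G.tgt f) := fun h1 =>
    hna' (h1.trans (a4.mono (by intro d hd; simp only [hW]; grind)))
  -- the four pieces in `Z`
  have z1 : G.R Z a (G.src e) := by
    rcases a1.split (G.opp f) with h1 | h1
    · exact h1.mono (by intro d hd; simp only [hZ]; grind)
    · exfalso
      apply hq
      have := h1.1
      rw [G.src_opp] at this
      exact this.mono (by intro d hd; simp only [hW]; grind)
  have z2 : G.R Z (G.tgt e) a' := by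
    rcases a2.split (G.opp f) with h1 | h1
    · exact h1.mono (by intro d hd; simp only [hZ]; grind)
    · exfalso
      apply hna'
      have := h1.2
      rw [G.tgt_opp] at this
      exact hp.trans (this.mono (by intro d hd; simp only [hW]; grind))
  have z3 : G.R Z a (G.src f) := by
    rcases a3.split (G.opp e) with h1 | h1
    · exact h1.mono (by intro d hd; simp only [hZ]; grind)
    · exfalso
      apply hv
      have := h1.1
      rw [G.src_opp] at this
      exact this.mono (by intro d hd; simp only [hW]; grind)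
  have z4 : G.R Z (G.tgt f) a' := by
    rcases a4.split (G.opp e) with h1 | h1
    · exact h1.mono (by intro d hd; simp only [hZ]; grind)
    · exfalso
      apply hna'
      have := h1.2
      rw [G.tgt_opp] at this
      exact hu.trans (this.mono (by intro d hd; simp only [hW]; grind))
  -- the second pair
  obtain ⟨b1, b2⟩ := B1.split2 F2
  rw [G.src_opp, G.opp_opp] at b1
  rw [G.tgt_opp, G.opp_opp] at b2
  have y1 : G.R Z b (G.tgt f) := by
    rcases b1.split (G.opp e) with h1 | h1
    · exact h1.mono (by intro d hd; simp only [hZ]; grind)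
    · exfalso
      apply hq
      have := h1.2
      rw [G.tgt_opp] at this
      exact hu.trans (this.mono (by intro d hd; simp only [hW]; grind))
  have y2 : G.R Z (G.src f) b' := by
    rcases b2.split (G.opp e) with h1 | h1
    · exact h1.mono (by intro d hd; simp only [hZ]; grind)
    · exfalso
      apply hv
      have := h1.1
      rw [G.src_opp] at this
      exact hp.trans (this.mono (by intro d hd; simp only [hW]; grind))
  -- single darts
  have se : G.R (X \ {G.opp e}) (G.src e) (G.tgt e) := R.single ⟨he, hoe.symm⟩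
  -- `g` is neither `f` nor `opp f`
  have hgf : g ≠ f := by
    rintro rfl
    apply G1
    have s1 : G.R ((X \ {G.opp e}) \ {g}) (G.src e) (G.tgt e) :=
      R.single ⟨⟨he, hoe.symm⟩, hge.symm⟩
    exact ((z1.mono (by intro d hd; simp only [hZ] at hd; grind)).trans s1).trans
      (z2.mono (by intro d hd; simp only [hZ] at hd; grind))
  have hgf' : g ≠ G.opp f := by
    intro hgo
    apply G1
    have s1 : G.R ((X \ {G.opp e}) \ {g}) (G.src e) (G.tgt e) :=
      R.single ⟨⟨he, hoe.symm⟩, hge.symm⟩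
    exact ((z1.mono (by intro d hd; simp only [hZ] at hd; grind)).trans s1).trans
      (z2.mono (by intro d hd; simp only [hZ] at hd; grind))
  have hogf : G.opp g ≠ f := fun h1 => hgf' (by rw [← h1, G.opp_opp])
  have hogf' : G.opp g ≠ G.opp f := fun h1 => hgf (by rw [← G.opp_opp g, h1, G.opp_opp])
  have hgZ : g ∈ Z := by simp only [hZ]; grind
  have hgZ' : G.opp g ∈ Z := by simp only [hZ]; grind
  rcases h.2.2 g hg.1 hg'.1 with hi | hi
  · -- case (i)
    have hi' : ¬ G.R ((X \ {g}) \ {G.opp e}) a a' := fun h1 => G1 (h1.mono (by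
      intro d hd; grind))
    obtain ⟨c1, c2⟩ := hi.split2 hi'
    rw [G.src_opp, G.opp_opp] at c1
    rw [G.tgt_opp, G.opp_opp] at c2
    have d1 : G.R ((X \ {G.opp e}) \ {g}) a (G.src f) := by
      rcases c1.split f with h1 | h1
      · exfalso
        exact hv (h1.mono (by intro d hd; simp only [hW]; grind))
      · exact h1.1.mono (by intro d hd; grind)
    have d2 : G.R ((X \ {G.opp e}) \ {g}) (G.tgt f) a' := by
      rcases c2.split f with h1 | h1
      · exfalso
        exact hna' (hu.trans (h1.mono (by intro d hd; simp only [hW]; grind)))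
      · exact h1.2.mono (by intro d hd; grind)
    have s1 : G.R ((X \ {G.opp e}) \ {g}) (G.src f) (G.tgt f) :=
      R.single ⟨⟨hf.1, hfe'⟩, hgf.symm⟩
    exact G1 ((d1.trans s1).trans d2)
  · -- case (ii)
    have hi' : ¬ G.R ((X \ {G.opp g}) \ {G.opp e}) b b' := fun h1 => G2 (h1.mono (by
      intro d hd; grind))
    obtain ⟨c1, c2⟩ := hi.split2 hi'
    rw [G.src_opp, G.opp_opp] at c1
    rw [G.tgt_opp, G.opp_opp] at c2
    have c1' : G.R ((X \ {G.opp e}) \ {G.opp g}) b (G.tgt e) :=
      c1.mono (by intro d hd; grind)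
    have c2' : G.R ((X \ {G.opp e}) \ {G.opp g}) (G.src e) b' :=
      c2.mono (by intro d hd; grind)
    have sf : G.R ((X \ {G.opp e}) \ {G.opp g}) (G.tgt f) (G.src f) := by
      have := R.single (G := G) (X := (X \ {G.opp e}) \ {G.opp g}) (d := G.opp f)
        ⟨⟨hf'.1, hofe'⟩, hogf'.symm⟩
      rwa [G.src_opp, G.tgt_opp] at this
    have hZs : ∀ t : δ, Z \ {G.opp g} ⊆ (X \ {G.opp e}) \ {G.opp g} := by
      intro _ d hd; simp only [hZ] at hd; grind
    have hZs2 : Z \ {g, G.opp g} ⊆ (X \ {G.opp e}) \ {G.opp g} := by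
      intro d hd; simp only [hZ] at hd; grind
    by_cases hau : G.R (Z \ {g}) a (G.src e)
    · -- case B
      have hva : ¬ G.R (Z \ {g}) (G.tgt e) a' := by
        intro h1
        apply G1
        have s1 : G.R ((X \ {G.opp e}) \ {g}) (G.src e) (G.tgt e) :=
          R.single ⟨⟨he, hoe.symm⟩, hge.symm⟩
        exact ((hau.mono (by intro d hd; simp only [hZ] at hd; grind)).trans s1).trans
          (h1.mono (by intro d hd; simp only [hZ] at hd; grind))
      obtain ⟨w1, w2⟩ := z2.split2 hva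
      have hw : ¬ G.R W a (G.tgt g) := fun h1 =>
        hna' (h1.trans (w2.mono (by intro d hd; exact hZW hd.1)))
      have p1 : G.R (Z \ {G.opp g}) (G.src f) b' := by
        rcases y2.split (G.opp g) with h1 | h1
        · exact h1
        · exfalso
          apply hw
          have := h1.1
          rw [G.src_opp] at this
          exact hp.trans (this.mono (by intro d hd; exact hZW hd.1))
      rcases y1.split (G.opp g) with h1 | h1
      · exact G2 (((h1.mono (hZs g)).trans sf).trans (p1.mono (hZs g)))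
      · have h2 := h1.2
        rw [G.tgt_opp] at h2
        exact G2 ((((c1'.trans (w1.mono hZs2)).trans (h2.mono (hZs g))).trans sf).trans
          (p1.mono (hZs g)))
    · -- case A
      obtain ⟨w1, w2⟩ := z1.split2 hau
      have hr : G.R W a (G.src g) := w1.mono (by intro d hd; exact hZW hd.1)
      have q1 : G.R (Z \ {G.opp g}) b (G.tgt f) := by
        rcases y1.split (G.opp g) with h1 | h1
        · exact h1
        · exfalso
          apply hq
          have := h1.2
          rw [G.tgt_opp] at this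
          exact hr.trans (this.mono (by intro d hd; exact hZW hd.1))
      rcases y2.split (G.opp g) with h1 | h1
      · exact G2 (((q1.mono (hZs g)).trans sf).trans (h1.mono (hZs g)))
      · have h2 := h1.1
        rw [G.src_opp] at h2
        exact G2 (((((q1.mono (hZs g)).trans sf).trans (h2.mono (hZs g))).trans
          (w2.mono hZs2)).trans c2')

/-- One of the two darts of an edge may be deleted. -/
lemma hyp_step {X : Set δ} {a a' b b' : V} (h : G.Hyp X a a' b b') {e : δ} (he : e ∈ X)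
    (he' : G.opp e ∈ X) : G.Hyp (X \ {e}) a a' b b' ∨ G.Hyp (X \ {G.opp e}) a a' b b' := by
  by_cases A1 : G.R (X \ {e}) a a'
  · by_cases A2 : G.R (X \ {G.opp e}) a a'
    · by_cases B1 : G.R (X \ {e}) b b'
      · by_cases B2 : G.R (X \ {G.opp e}) b b'
        · by_contra hcon
          push Not at hcon
          obtain ⟨hc1, hc2⟩ := hcon
          have hf : ∃ f ∈ X \ {e}, G.opp f ∈ X \ {e} ∧ ¬ G.R ((X \ {e}) \ {f}) a a' ∧
              ¬ G.R ((X \ {e}) \ {G.opp f}) b b' := by
            by_contra hno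
            apply hc1
            refine ⟨A1, B1, fun f hf hf' => ?_⟩
            by_contra hno'
            push Not at hno'
            exact hno ⟨f, hf, hf', hno'.1, hno'.2⟩
          have hg : ∃ g ∈ X \ {G.opp e}, G.opp g ∈ X \ {G.opp e} ∧
              ¬ G.R ((X \ {G.opp e}) \ {g}) a a' ∧
              ¬ G.R ((X \ {G.opp e}) \ {G.opp g}) b b' := by
            by_contra hno
            apply hc2
            refine ⟨A2, B2, fun f hf hf' => ?_⟩
            by_contra hno'
            push Not at hno'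
            exact hno ⟨f, hf, hf', hno'.1, hno'.2⟩
          obtain ⟨f, hf, hf', F1, F2⟩ := hf
          obtain ⟨g, hg, hg', G1, G2⟩ := hg
          rcases h.2.2 f hf.1 hf'.1 with h1 | h1
          · exact key_false h he he' A1 A2 B1 B2 hf hf' F1 F2 hg hg' G1 G2 h1
          · exact key_false h.symm he he' B1 B2 A1 A2 hf' (by rwa [G.opp_opp]) F2
              (by rwa [G.opp_opp]) hg' (by rwa [G.opp_opp]) G2 (by rwa [G.opp_opp]) h1
        · left
          have := (hyp_of_needed h.symm (e := G.opp e) (by rwa [G.opp_opp]) B2).symm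
          rwa [G.opp_opp] at this
      · right
        exact (hyp_of_needed h.symm he' B1).symm
    · left
      have := hyp_of_needed h (e := G.opp e) (by rwa [G.opp_opp]) A2
      rwa [G.opp_opp] at this
  · right
    exact hyp_of_needed h he' A1

variable (G)

/-- A set of darts containing no two opposite darts. -/
def Cons (F : Set δ) : Prop := ∀ d ∈ F, G.opp d ∉ F

variable {G}

/-- **The two-pair theorem** for mixed graphs. -/
theorem two_pair {X : Set δ} (hX : X.Finite) {a a' b b' : V} :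
    (∃ F ⊆ X, G.Cons F ∧ G.R F a a' ∧ G.R F b b') ↔ G.Hyp X a a' b b' := by
  constructor
  · rintro ⟨F, hF, hc, h1, h2⟩
    refine ⟨h1.mono hF, h2.mono hF, fun f hf hf' => ?_⟩
    by_cases hfF : f ∈ F
    · right
      exact h2.mono fun d hd => ⟨hF hd, fun h3 => hc f hfF (by rw [← (h3 : d = G.opp f)]; exact hd)⟩
    · left
      exact h1.mono fun d hd => ⟨hF hd, fun h3 => hfF (by rw [← (h3 : d = f)]; exact hd)⟩
  · intro h
    obtain ⟨n, hn⟩ : ∃ n, X.ncard = n := ⟨_, rfl⟩
    induction n using Nat.strong_induction_on generalizing X with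
    | _ n ih =>
      by_cases hc : G.Cons X
      · exact ⟨X, subset_rfl, hc, h.1, h.2.1⟩
      · unfold Cons at hc
        push Not at hc
        obtain ⟨e, he, he'⟩ := hc
        rcases hyp_step h he he' with h1 | h1
        · have hlt := Set.ncard_sdiff_singleton_lt_of_mem he hX
          obtain ⟨F, hF, h2⟩ := ih _ (hn ▸ hlt) (hX.subset Set.sdiff_subset) h1 rfl
          exact ⟨F, hF.trans Set.sdiff_subset, h2⟩
        · have hlt := Set.ncard_sdiff_singleton_lt_of_mem he' hX
          obtain ⟨F, hF, h2⟩ := ih _ (hn ▸ hlt) (hX.subset Set.sdiff_subset) h1 rfl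
          exact ⟨F, hF.trans Set.sdiff_subset, h2⟩

/-- A walk may be shortened so that it uses no edge in both directions. -/
theorem exists_cons {X : Set δ} (hX : X.Finite) {a a' : V} (h : G.R X a a') :
    ∃ F ⊆ X, G.Cons F ∧ G.R F a a' := by
  obtain ⟨n, hn⟩ : ∃ n, X.ncard = n := ⟨_, rfl⟩
  induction n using Nat.strong_induction_on generalizing X with
  | _ n ih =>
    by_cases hc : G.Cons X
    · exact ⟨X, subset_rfl, hc, h⟩
    · unfold Cons at hc
      push Not at hc
      obtain ⟨e, he, he'⟩ := hc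
      by_cases h1 : G.R (X \ {e}) a a'
      · have hlt := Set.ncard_sdiff_singleton_lt_of_mem he hX
        obtain ⟨F, hF, h2⟩ := ih _ (hn ▸ hlt) (hX.subset Set.sdiff_subset) h1 rfl
        exact ⟨F, hF.trans Set.sdiff_subset, h2⟩
      · have h3 := h.avoid_opp h1
        have hlt := Set.ncard_sdiff_singleton_lt_of_mem he' hX
        obtain ⟨F, hF, h2⟩ := ih _ (hn ▸ hlt) (hX.subset Set.sdiff_subset) h3 rfl
        exact ⟨F, hF.trans Set.sdiff_subset, h2⟩

end DG

end Pool.Agent.MixedOrient
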