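import Pool.Agent.Lib.PolyTime.Nat

/-!
# Mixed graphs with two marked vertices: definitions

Vertices are natural numbers. Edges and arcs are given by lists of triples (tail, head, length), so
that parallel edges and arcs, and loops, are allowed.
-/

set_option autoImplicit false

namespace Pool.Agent.MixedOrient

open Pool.Agent.PolyTime

/-- `Walk C x y w`: there is a directed walk from `x` to `y` along arcs in `C` (triples tail, head,
length) of total length `w`. -/
inductive Walk {W : Type*} [Zero W] [Add W] (C : Set (ℕ × ℕ × W)) : ℕ → ℕ → W → Prop
  | nil (x : ℕ) : Walk C x x 0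
  | cons {x y z : ℕ} {l w : W} : (x, y, l) ∈ C → Walk C y z w → Walk C x z (l + w)

/-- The reversed arc. -/
def swp {W : Type*} (e : ℕ × ℕ × W) : ℕ × ℕ × W := (e.2.1, e.1, e.2.2)

/-- The distance from `x` to `y` in the directed graph with the list `C` of arcs: the least length
of a directed walk from `x` to `y`, and infinite if there is none. -/
noncomputable def dist (C : List (ℕ × ℕ × ℚ≥0)) (x y : ℕ) : ENNReal :=
  ⨅ w : {w : ℚ≥0 // Walk {e | e ∈ C} x y w}, ((w.1 : NNReal) : ENNReal)

/-- An instance: a mixed graph, given by the list of its undirected edges and the list of its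
directed arcs, both with their lengths, and two vertices `s` and `t`. -/
structure Inst where
  /-- the undirected edges -/
  edges : List (ℕ × ℕ × ℚ≥0)
  /-- the directed arcs -/
  arcs : List (ℕ × ℕ × ℚ≥0)
  /-- the first marked vertex -/
  s : ℕ
  /-- the second marked vertex -/
  t : ℕ

/-- The directed graph obtained by replacing each undirected edge by two opposite arcs. -/
def Inst.full (G : Inst) : List (ℕ × ℕ × ℚ≥0) := (G.edges ++ G.edges.map swp) ++ G.arcs

/-- The orientation of the mixed graph in which the edge number `i` keeps the direction in which it
is listed if `σ i` is true, and is reversed otherwise. -/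
def Inst.orient (G : Inst) (σ : ℕ → Bool) : List (ℕ × ℕ × ℚ≥0) :=
  (G.edges.mapIdx fun i e => bif σ i then e else swp e) ++ G.arcs

/-- The numbers describing a list of arcs: tail, head, and numerator and denominator of the
length. -/
def rows (L : List (ℕ × ℕ × ℚ≥0)) : List (ℕ × ℕ × ℕ × ℕ) :=
  L.map fun e => (e.1, e.2.1, e.2.2.num, e.2.2.den)

/-- The input string of an instance. All numbers are written in binary. -/
def encodeInst (G : Inst) : List Bool := code (enc (rows G.edges, rows G.arcs, G.s, G.t))

end Pool.Agent.MixedOrient
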