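import Pool.Agent.Lib.MixedOrient.Core

/-!
# The level theorem
-/

set_option autoImplicit false

namespace Pool.Agent.MixedOrient

namespace DG

variable {V δ : Type*} (G : DG V δ)

/-- The compatibility of the two sets of darts with the potential `S`. -/
structure Lev (X1 X2 : Set δ) (S : V → ℕ) : Prop where
  h1 : ∀ d ∈ X1, S (G.src d) ≤ S (G.tgt d)
  h2 : ∀ d ∈ X2, S (G.tgt d) ≤ S (G.src d)
  h3 : ∀ d, S (G.src d) = S (G.tgt d) → (d ∈ X1 ↔ d ∈ X2)

/-- The darts of level `c`. -/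
def M (X1 : Set δ) (S : V → ℕ) (c : ℕ) : Set δ := {d | d ∈ X1 ∧ S (G.src d) = c ∧ S (G.tgt d) = c}

/-- The moves of the pair graph. -/
inductive Step (X1 X2 : Set δ) (S : V → ℕ) : V × V → V × V → Prop
  | t1 (d : δ) (y : V) : d ∈ X1 → S y < S (G.tgt d) → Step X1 X2 S (G.src d, y) (G.tgt d, y)
  | t2 (f : δ) (x : V) : f ∈ X2 → S x < S (G.src f) → Step X1 X2 S (x, G.tgt f) (x, G.src f)
  | t3 (e f : δ) (x y : V) : e ∈ X1 → f ∈ X2 → f ≠ G.opp e → S (G.src e) < S (G.tgt e) →
      S (G.tgt f) < S (G.tgt e) → S (G.src f) = S (G.tgt e) → S x = S (G.tgt e) →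
      S y = S (G.tgt e) → G.Hyp (G.M X1 S (S (G.tgt e))) (G.tgt e) x y (G.src f) →
      Step X1 X2 S (G.src e, G.tgt f) (x, y)

/-- The pairs reachable from a base pair. -/
def PR (X1 X2 : Set δ) (S : V → ℕ) (s : V) (p : V × V) : Prop :=
  ∃ q : V × V, S q.1 = 0 ∧ S q.2 = 0 ∧ G.Hyp (G.M X1 S 0) s q.1 q.2 s ∧
    Relation.ReflTransGen (G.Step X1 X2 S) q p

variable {G}

lemma M_subset (X1 : Set δ) (S : V → ℕ) (c : ℕ) : G.M X1 S c ⊆ X1 := fun _ h => h.1

lemma M_subset2 {X1 X2 : Set δ} {S : V → ℕ} (hL : G.Lev X1 X2 S) (c : ℕ) :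
    G.M X1 S c ⊆ X2 := fun d h => (hL.h3 d (h.2.1.trans h.2.2.symm)).1 h.1

lemma R.le1 {X1 X2 : Set δ} {S : V → ℕ} (hL : G.Lev X1 X2 S) {F : Set δ} (hF : F ⊆ X1) {x y : V}
    (h : G.R F x y) : S x ≤ S y := by
  induction h with
  | refl => exact le_rfl
  | tail _ hstep ih =>
    obtain ⟨d, hd, h1, h2⟩ := hstep
    have := hL.h1 d (hF hd)
    rw [h1, h2] at this
    exact ih.trans this

lemma R.le2 {X1 X2 : Set δ} {S : V → ℕ} (hL : G.Lev X1 X2 S) {F : Set δ} (hF : F ⊆ X2) {x y : V}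
    (h : G.R F x y) : S y ≤ S x := by
  induction h with
  | refl => exact le_rfl
  | tail _ hstep ih =>
    obtain ⟨d, hd, h1, h2⟩ := hstep
    have := hL.h2 d (hF hd)
    rw [h1, h2] at this
    exact this.trans ih

/-- The state used for soundness. -/
structure Inv (X1 X2 : Set δ) (S : V → ℕ) (s : V) (x y : V) (F1 F2 : Set δ) : Prop where
  s1 : F1 ⊆ X1
  s2 : F2 ⊆ X2
  r1 : G.R F1 s x
  r2 : G.R F2 y s
  c : ∀ d ∈ F1, G.opp d ∉ F2
  l1 : ∀ d ∈ F1, S (G.tgt d) ≤ S x
  l2 : ∀ d ∈ F2, S (G.src d) ≤ S y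

lemma inv_of_pr {X1 X2 : Set δ} (hX1 : X1.Finite) {S : V → ℕ} (hL : G.Lev X1 X2 S) {s : V}
    {p : V × V} (h : G.PR X1 X2 S s p) : ∃ F1 F2, Inv (G := G) X1 X2 S s p.1 p.2 F1 F2 := by
  obtain ⟨q, hq1, hq2, hH, hr⟩ := h
  induction hr with
  | refl =>
    obtain ⟨F, hF, hc, h1, h2⟩ := (two_pair (hX1.subset (M_subset X1 S 0))).2 hH
    refine ⟨F, F, hF.trans (M_subset _ _ _), hF.trans (M_subset2 hL _), h1, h2, hc, ?_, ?_⟩
    · intro d hd
      rw [(hF hd).2.2]; exact Nat.zero_le _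
    · intro d hd
      rw [(hF hd).2.1]; exact Nat.zero_le _
  | tail _ hstep ih =>
    obtain ⟨F1, F2, hI⟩ := ih
    cases hstep with
    | t1 d y hd hlt =>
      refine ⟨insert d F1, F2, ?_, hI.s2, ?_, hI.r2, ?_, ?_, hI.l2⟩
      · exact Set.insert_subset hd hI.s1
      · exact (hI.r1.mono (Set.subset_insert _ _)).trans (R.single (Set.mem_insert _ _))
      · intro e he heo
        rcases he with rfl | he
        · have := hI.l2 _ heo
          rw [G.src_opp] at this
          exact absurd (lt_of_lt_of_le hlt this) (lt_irrefl _)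
        · exact hI.c e he heo
      · intro e he
        rcases he with rfl | he
        · exact le_rfl
        · exact (hI.l1 e he).trans (hL.h1 d hd)
    | t2 f x hf hlt =>
      refine ⟨F1, insert f F2, hI.s1, ?_, hI.r1, ?_, ?_, hI.l1, ?_⟩
      · exact Set.insert_subset hf hI.s2
      · exact (R.single (Set.mem_insert _ _)).trans (hI.r2.mono (Set.subset_insert _ _))
      · intro e he heo
        rcases heo with heo | heo
        · have := hI.l1 _ he
          rw [← heo, G.src_opp] at hlt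
          exact absurd (lt_of_lt_of_le hlt this) (lt_irrefl _)
        · exact hI.c e he heo
      · intro e he
        rcases he with rfl | he
        · exact le_rfl
        · exact (hI.l2 e he).trans (hL.h2 f hf)
    | t3 e f x y he hf hne hlt1 hlt2 heq hx hy hH' =>
      obtain ⟨F, hF, hc, h1, h2⟩ := (two_pair (hX1.subset (M_subset X1 S _))).2 hH'
      have hl1 := hI.l1
      have hl2 := hI.l2
      have hr1 := hI.r1
      have hr2 := hI.r2
      simp only at hl1 hl2 hr1 hr2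
      refine ⟨insert e F1 ∪ F, insert f F2 ∪ F, ?_, ?_, ?_, ?_, ?_, ?_, ?_⟩
      · exact Set.union_subset (Set.insert_subset he hI.s1) (hF.trans (M_subset _ _ _))
      · exact Set.union_subset (Set.insert_subset hf hI.s2) (hF.trans (M_subset2 hL _))
      · refine ((hr1.mono ?_).trans (R.single (d := e) ?_)).trans (h1.mono ?_)
        · exact (Set.subset_insert _ _).trans Set.subset_union_left
        · exact Or.inl (Set.mem_insert _ _)
        · exact Set.subset_union_right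
      · refine ((h2.mono ?_).trans (R.single (d := f) ?_)).trans (hr2.mono ?_)
        · exact Set.subset_union_right
        · exact Or.inl (Set.mem_insert _ _)
        · exact (Set.subset_insert _ _).trans Set.subset_union_left
      · intro d hd hdo
        rcases hd with (rfl | hd) | hd
        · rcases hdo with (hdo | hdo) | hdo
          · exact hne hdo.symm
          · have := hl2 _ hdo
            rw [G.src_opp] at this
            omega
          · have := (hF hdo).2.2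
            rw [G.tgt_opp] at this
            omega
        · rcases hdo with (hdo | hdo) | hdo
          · have := hl1 _ hd
            rw [← hdo, G.src_opp] at heq
            omega
          · exact hI.c d hd hdo
          · have h3 := (hF hdo).2.1
            rw [G.src_opp] at h3
            have := hl1 _ hd
            omega
        · rcases hdo with (hdo | hdo) | hdo
          · have h3 := (hF hd).2.1
            rw [← hdo, G.tgt_opp] at hlt2
            omega
          · have h3 := (hF hd).2.2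
            have := hl2 _ hdo
            rw [G.src_opp] at this
            omega
          · exact hc d hd hdo
      · intro d hd
        rcases hd with (rfl | hd) | hd
        · exact hx.ge
        · have := hl1 _ hd
          simp only
          omega
        · have := (hF hd).2.2
          simp only
          omega
      · intro d hd
        rcases hd with (rfl | hd) | hd
        · simp only
          omega
        · have := hl2 _ hd
          simp only
          omega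
        · have := (hF hd).2.1
          simp only
          omega

lemma sound {X1 X2 : Set δ} (hX1 : X1.Finite) (hX2 : X2.Finite) {S : V → ℕ}
    (hL : G.Lev X1 X2 S) {s t : V} (h : G.PR X1 X2 S s (t, t)) :
    ∃ F, G.Cons F ∧ G.R (X1 ∩ F) s t ∧ G.R (X2 ∩ F) t s := by
  obtain ⟨F1, F2, hI⟩ := inv_of_pr hX1 hL h
  obtain ⟨K1, hK1, c1, r1⟩ := exists_cons (hX1.subset hI.s1) hI.r1
  obtain ⟨K2, hK2, c2, r2⟩ := exists_cons (hX2.subset hI.s2) hI.r2
  refine ⟨K1 ∪ K2, ?_, ?_, ?_⟩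
  · intro d hd hdo
    rcases hd with hd | hd
    · rcases hdo with hdo | hdo
      · exact c1 d hd hdo
      · exact hI.c d (hK1 hd) (hK2 hdo)
    · rcases hdo with hdo | hdo
      · refine hI.c (G.opp d) (hK1 hdo) ?_
        rw [G.opp_opp]
        exact hK2 hd
      · exact c2 d hd hdo
  · exact r1.mono fun d hd => ⟨hI.s1 (hK1 hd), Or.inl hd⟩
  · exact r2.mono fun d hd => ⟨hI.s2 (hK2 hd), Or.inr hd⟩

/-- Leaving a level forwards. -/
lemma leave1 {X1 X2 : Set δ} {S : V → ℕ} (hL : G.Lev X1 X2 S) {F : Set δ} {c : ℕ} {x t : V}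
    (h : G.R (X1 ∩ F) x t) (hx : S x = c) : ∃ x', G.R (F ∩ G.M X1 S c) x x' ∧ S x' = c ∧
      (x' = t ∨ ∃ d ∈ X1 ∩ F, G.src d = x' ∧ c < S (G.tgt d) ∧ G.R (X1 ∩ F) (G.tgt d) t) := by
  induction h using Relation.ReflTransGen.head_induction_on with
  | refl => exact ⟨t, R.refl _ _, hx, Or.inl rfl⟩
  | head hstep hrest ih =>
    obtain ⟨d, hd, h1, h2⟩ := hstep
    subst h1
    subst h2
    by_cases hc : S (G.tgt d) = c
    · obtain ⟨x', h3, h4, h5⟩ := ih hc
      have h6 : G.R (F ∩ G.M X1 S c) (G.src d) (G.tgt d) := R.single ⟨hd.2, hd.1, hx, hc⟩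
      exact ⟨x', h6.trans h3, h4, h5⟩
    · refine ⟨G.src d, R.refl _ _, hx, Or.inr ⟨d, hd, rfl, ?_, hrest⟩⟩
      have := hL.h1 d hd.1
      omega

/-- Leaving a level backwards. -/
lemma leave2 {X1 X2 : Set δ} {S : V → ℕ} (hL : G.Lev X1 X2 S) {F : Set δ} {c : ℕ} {y t : V}
    (h : G.R (X2 ∩ F) t y) (hy : S y = c) : ∃ y', G.R (F ∩ G.M X1 S c) y' y ∧ S y' = c ∧
      (y' = t ∨ ∃ d ∈ X2 ∩ F, G.tgt d = y' ∧ c < S (G.src d) ∧ G.R (X2 ∩ F) t (G.src d)) := by
  induction h with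
  | refl => exact ⟨t, R.refl _ _, hy, Or.inl rfl⟩
  | tail hrest hstep ih =>
    obtain ⟨d, hd, h1, h2⟩ := hstep
    subst h1
    subst h2
    by_cases hc : S (G.src d) = c
    · obtain ⟨y', h3, h4, h5⟩ := ih hc
      have h6 : G.R (F ∩ G.M X1 S c) (G.src d) (G.tgt d) :=
        R.single ⟨hd.2, (hL.h3 d (hc.trans hy.symm)).2 hd.1, hc, hy⟩
      exact ⟨y', h3.trans h6, h4, h5⟩
    · refine ⟨G.tgt d, R.refl _ _, hy, Or.inr ⟨d, hd, rfl, ?_, hrest⟩⟩
      have := hL.h2 d hd.1
      omega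

lemma step1 {X1 X2 : Set δ} {S : V → ℕ} {F : Set δ} {c : ℕ} {x x' y : V}
    (h : G.R (F ∩ G.M X1 S c) x x') (hy : S y < c) :
    Relation.ReflTransGen (G.Step X1 X2 S) (x, y) (x', y) := by
  induction h with
  | refl => exact Relation.ReflTransGen.refl
  | tail _ hstep ih =>
    obtain ⟨d, hd, h1, h2⟩ := hstep
    subst h1
    subst h2
    exact ih.tail (Step.t1 d y hd.2.1 (by rw [hd.2.2.2]; exact hy))

lemma step2 {X1 X2 : Set δ} {S : V → ℕ} (hL : G.Lev X1 X2 S) {F : Set δ} {c : ℕ} {x y y' : V}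
    (h : G.R (F ∩ G.M X1 S c) y' y) (hx : S x < c) :
    Relation.ReflTransGen (G.Step X1 X2 S) (x, y) (x, y') := by
  induction h using Relation.ReflTransGen.head_induction_on with
  | refl => exact Relation.ReflTransGen.refl
  | head hstep _ ih =>
    obtain ⟨d, hd, h1, h2⟩ := hstep
    subst h1
    subst h2
    exact ih.tail (Step.t2 d x (M_subset2 hL c hd.2) (by rw [hd.2.2.1]; exact hx))

lemma complete_aux {X1 X2 : Set δ} (hX1 : X1.Finite) {S : V → ℕ} (hL : G.Lev X1 X2 S) {s t : V}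
    (hs : S s = 0) {F : Set δ} (hc : G.Cons F) (h1 : G.R (X1 ∩ F) s t) (h2 : G.R (X2 ∩ F) t s)
    (c : ℕ) : ∃ x y, S x ≤ c ∧ S y ≤ c ∧ G.PR X1 X2 S s (x, y) ∧
      (x = t ∨ ∃ d ∈ X1 ∩ F, G.src d = x ∧ c < S (G.tgt d) ∧ G.R (X1 ∩ F) (G.tgt d) t) ∧
      (y = t ∨ ∃ d ∈ X2 ∩ F, G.tgt d = y ∧ c < S (G.src d) ∧ G.R (X2 ∩ F) t (G.src d)) := by
  induction c with
  | zero =>
    obtain ⟨x, a1, a2, a3⟩ := leave1 hL h1 hs
    obtain ⟨y, b1, b2, b3⟩ := leave2 hL h2 hs
    refine ⟨x, y, a2.le, b2.le, ⟨(x, y), a2, b2, ?_, Relation.ReflTransGen.refl⟩, a3, b3⟩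
    exact (two_pair (hX1.subset (M_subset X1 S 0))).1
      ⟨F ∩ G.M X1 S 0, Set.inter_subset_right, fun d hd hd' => hc d hd.1 hd'.1, a1, b1⟩
  | succ c ih =>
    obtain ⟨x, y, hx, hy, ⟨q, q1, q2, q3, q4⟩, hP, hQ⟩ := ih
    -- whether the forward walk enters the new level
    have eP : (x = t ∨ ∃ d ∈ X1 ∩ F, G.src d = x ∧ c + 1 < S (G.tgt d) ∧
        G.R (X1 ∩ F) (G.tgt d) t) ∨ ∃ d ∈ X1 ∩ F, G.src d = x ∧ S (G.tgt d) = c + 1 ∧
        G.R (X1 ∩ F) (G.tgt d) t := by
      rcases hP with hP | ⟨d, hd, hdx, hdc, hdt⟩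
      · exact Or.inl (Or.inl hP)
      · by_cases h : S (G.tgt d) = c + 1
        · exact Or.inr ⟨d, hd, hdx, h, hdt⟩
        · exact Or.inl (Or.inr ⟨d, hd, hdx, by omega, hdt⟩)
    have eQ : (y = t ∨ ∃ d ∈ X2 ∩ F, G.tgt d = y ∧ c + 1 < S (G.src d) ∧
        G.R (X2 ∩ F) t (G.src d)) ∨ ∃ d ∈ X2 ∩ F, G.tgt d = y ∧ S (G.src d) = c + 1 ∧
        G.R (X2 ∩ F) t (G.src d) := by
      rcases hQ with hQ | ⟨d, hd, hdx, hdc, hdt⟩
      · exact Or.inl (Or.inl hQ)
      · by_cases h : S (G.src d) = c + 1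
        · exact Or.inr ⟨d, hd, hdx, h, hdt⟩
        · exact Or.inl (Or.inr ⟨d, hd, hdx, by omega, hdt⟩)
    rcases eP with eP | ⟨d, hd, hdx, hdc, hdt⟩
    · rcases eQ with eQ | ⟨f, hf, hfy, hfc, hft⟩
      · exact ⟨x, y, by omega, by omega, ⟨q, q1, q2, q3, q4⟩, eP, eQ⟩
      · obtain ⟨y', b1, b2, b3⟩ := leave2 hL hft hfc
        refine ⟨x, y', by omega, b2.le, ⟨q, q1, q2, q3, ?_⟩, eP, b3⟩
        have h3 : G.Step X1 X2 S (x, G.tgt f) (x, G.src f) := Step.t2 f x hf.1 (by omega)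
        rw [hfy] at h3
        exact (q4.tail h3).trans (step2 hL b1 (by omega))
    · rcases eQ with eQ | ⟨f, hf, hfy, hfc, hft⟩
      · obtain ⟨x', a1, a2, a3⟩ := leave1 hL hdt hdc
        refine ⟨x', y, a2.le, by omega, ⟨q, q1, q2, q3, ?_⟩, a3, eQ⟩
        have h3 : G.Step X1 X2 S (G.src d, y) (G.tgt d, y) := Step.t1 d y hd.1 (by omega)
        rw [hdx] at h3
        exact (q4.tail h3).trans (step1 a1 (by omega))
      · obtain ⟨x', a1, a2, a3⟩ := leave1 hL hdt hdc
        obtain ⟨y', b1, b2, b3⟩ := leave2 hL hft hfc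
        refine ⟨x', y', a2.le, b2.le, ⟨q, q1, q2, q3, ?_⟩, a3, b3⟩
        have h4 : G.Hyp (G.M X1 S (S (G.tgt d))) (G.tgt d) x' y' (G.src f) := by
          rw [hdc]
          exact (two_pair (hX1.subset (M_subset X1 S _))).1
            ⟨F ∩ G.M X1 S (c + 1), Set.inter_subset_right, fun d hd hd' => hc d hd.1 hd'.1,
              a1, b1⟩
        have h3 : G.Step X1 X2 S (G.src d, G.tgt f) (x', y') :=
          Step.t3 d f x' y' hd.1 hf.1 (fun h5 => hc d hd.2 (by rw [← h5]; exact hf.2))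
            (by rw [hdx]; omega) (by rw [hfy]; omega) (by omega) (by omega) (by omega) h4
        rw [hdx, hfy] at h3
        exact q4.tail h3

/-- **The level theorem.** -/
theorem level {X1 X2 : Set δ} (hX1 : X1.Finite) (hX2 : X2.Finite) {S : V → ℕ}
    (hL : G.Lev X1 X2 S) {s t : V} (hs : S s = 0) :
    (∃ F, G.Cons F ∧ G.R (X1 ∩ F) s t ∧ G.R (X2 ∩ F) t s) ↔ G.PR X1 X2 S s (t, t) := by
  constructor
  · rintro ⟨F, hc, h1, h2⟩
    obtain ⟨x, y, hx, hy, hr, hP, hQ⟩ := complete_aux hX1 hL hs hc h1 h2 (S t)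
    have ex : x = t := by
      rcases hP with hP | ⟨d, hd, hdx, hdc, hdt⟩
      · exact hP
      · have := R.le1 hL Set.inter_subset_left hdt
        omega
    have ey : y = t := by
      rcases hQ with hQ | ⟨d, hd, hdx, hdc, hdt⟩
      · exact hQ
      · have := R.le2 hL Set.inter_subset_left hdt
        omega
    rw [ex, ey] at hr
    exact hr
  · exact sound hX1 hX2 hL

end DG

end Pool.Agent.MixedOrient
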