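import Pool.Agent.Lib.MixedOrient.AlgoPT
import Pool.Agent.Lib.PolyTime.Final

/-!
# Reading the input, and the main theorem
-/

set_option autoImplicit false

namespace Pool.Agent.MixedOrient

open Pool.Agent.PolyTime

/-- The numbers describing an instance. -/
abbrev Raw := List (ℕ × ℕ × ℕ × ℕ) × List (ℕ × ℕ × ℕ × ℕ) × ℕ × ℕ

/-- The numbers describing an instance. -/
def Inst.raw (G : Inst) : Raw := (rows G.edges, rows G.arcs, G.s, G.t)

instance : Enc Inst := ⟨fun G => enc G.raw⟩

lemma pt_raw : PT Inst.raw := FP.id (fun G : Inst => enc G)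

/-- The common denominator. -/
def rden (p : Raw) : ℕ := ((p.1 ++ p.2.1).map fun e => e.2.2.2).prod

/-- Scaling. -/
def rsc (N : ℕ) (e : ℕ × ℕ × ℕ × ℕ) : ℕ × ℕ × ℕ := (e.1, e.2.1, e.2.2.1 * (N / e.2.2.2))

/-- The darts. -/
def rdarts (p : Raw) : List Dart :=
  (p.1.zipIdx.flatMap fun q => [((q.2, true, rsc (rden p) q.1) : Dart),
    (q.2, false, swp (rsc (rden p) q.1))]) ++
  p.2.1.zipIdx.map fun q => (p.1.length + q.2, true, rsc (rden p) q.1)

lemma rden_raw (G : Inst) : rden G.raw = G.den := by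
  unfold rden Inst.raw Inst.den rows
  simp only
  rw [← List.map_append, List.map_map]
  rfl

lemma rdarts_raw (G : Inst) : rdarts G.raw = G.darts := by
  unfold rdarts Inst.darts
  rw [rden_raw]
  have h1 : ∀ L : List (ℕ × ℕ × ℚ≥0), (rows L).zipIdx =
      L.zipIdx.map (Prod.map (fun e => (e.1, e.2.1, e.2.2.num, e.2.2.den)) id) := by
    intro L
    unfold rows
    rw [List.zipIdx_map]
  have h2 : G.raw.1 = rows G.edges := rfl
  have h3 : G.raw.2.1 = rows G.arcs := rfl
  rw [h2, h3, h1, h1, List.flatMap_map, List.map_map]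
  have h4 : (rows G.edges).length = G.edges.length := by unfold rows; simp
  rw [h4]
  rfl

lemma prod_lt (l : List ℕ) : l.prod < 2 ^ sz l := by
  induction l with
  | nil => simp
  | cons a l ih =>
    rw [List.prod_cons, sz_cons]
    have h1 : a < 2 ^ a.size := Nat.lt_size_self a
    have h2 := size_lt_sz a
    calc a * l.prod < 2 ^ a.size * 2 ^ sz l := Nat.mul_lt_mul'' h1 ih
      _ = 2 ^ (a.size + sz l) := by rw [pow_add]
      _ ≤ 2 ^ (sz a + sz l + 1) := Nat.pow_le_pow_right (by norm_num) (by omega)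

section pt

variable {α : Type*} [Enc α]

lemma pt_prod {l : α → List ℕ} (hl : PT l) : PT fun a => (l a).prod := by
  have key : ∀ (l : List ℕ) (n : ℕ), l.foldl (fun (n : ℕ) (b : ℕ) => n * b) n = n * l.prod := by
    intro l
    induction l with
    | nil => intro n; simp
    | cons b l ih => intro n; rw [List.foldl_cons, ih, List.prod_cons, mul_assoc]
  have h1 := PT.foldl (g := fun (_ : α) (n : ℕ) (b : ℕ) => n * b) (s := fun _ => 1) (l := l)
    (by fun_prop) (by fun_prop) hl (B := fun a => 4 * sz (l a) + 1)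
    (((PBd.const 4).mul (PT.bdd hl)).add (PBd.const 1)) (by
      intro a l1 l2 h
      rw [key, one_mul]
      have h2 := Nat.size_le.2 (prod_lt l1)
      have h3 := sz_nat_le l1.prod
      have h4 : sz l1 ≤ sz (l a) := by
        rw [h]
        exact sz_sublist_le (List.sublist_append_left _ _)
      omega)
  refine h1.congr fun a => ?_
  rw [key, one_mul]

lemma pt_rden : PT rden :=
  pt_prod (PT.map (f := fun (_ : Raw) (e : ℕ × ℕ × ℕ × ℕ) => e.2.2.2) (by fun_prop) (by fun_prop))

@[fun_prop] lemma pt_rsc {N : α → ℕ} {e : α → ℕ × ℕ × ℕ × ℕ} (hN : PT N) (he : PT e) :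
    PT fun a => rsc (N a) (e a) := by
  unfold rsc
  fun_prop

lemma pt_rdarts : PT rdarts := by
  have hd : PT fun p : Raw × (ℕ × ℕ × ℕ × ℕ) × ℕ => rden p.1 := pt_rden.comp (by fun_prop)
  refine PT.append ?_ ?_
  · refine PT.flatMap (f := fun (p : Raw) (q : (ℕ × ℕ × ℕ × ℕ) × ℕ) =>
      [((q.2, true, rsc (rden p) q.1) : Dart), (q.2, false, swp (rsc (rden p) q.1))]) ?_
      (by fun_prop)
    fun_prop
  · refine PT.map (f := fun (p : Raw) (q : (ℕ × ℕ × ℕ × ℕ) × ℕ) =>
      ((p.1.length + q.2, true, rsc (rden p) q.1) : Dart)) ?_ (by fun_prop)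
    fun_prop

end pt

/-- The algorithm on the numbers describing the instance. -/
def ralg (p : Raw) : Bool := algo (rdarts p) p.2.2.1 p.2.2.2

lemma pt_ralg : PT ralg := pt_algo pt_rdarts (by fun_prop) (by fun_prop)

lemma pt_alg : PT Inst.alg := by
  refine (pt_ralg.comp pt_raw).congr fun G => ?_
  unfold ralg Inst.alg
  rw [rdarts_raw]
  rfl

/-- **The main theorem.** -/
theorem main_theorem : ∃ f : Inst → Bool,
    Nonempty (Turing.TM2ComputableInPolyTime encodeInst Computability.encodeBool f) ∧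
    ∀ G, f G = true ↔ ∃ σ : ℕ → Bool,
      dist (G.orient σ) G.s G.t = dist G.full G.s G.t ∧
      dist (G.orient σ) G.t G.s = dist G.full G.t G.s :=
  ⟨Inst.alg, PT.tmBool pt_alg, alg_iff⟩

end Pool.Agent.MixedOrient
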