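import Pool.Agent.Lib.MixedOrient.Bridge

/-!
# Integral lengths, orientations and sets of darts
-/

set_option autoImplicit false

namespace Pool.Agent.MixedOrient

/-- Scaling of a rational number to an integer. -/
def scq (N : ℕ) (q : ℚ≥0) : ℕ := q.num * (N / q.den)

lemma scq_spec {N : ℕ} {q : ℚ≥0} (h : q.den ∣ N) : (scq N q : ℚ≥0) = N * q := by
  obtain ⟨k, rfl⟩ := h
  unfold scq
  have hd : (q.den : ℚ≥0) ≠ 0 := by exact_mod_cast q.den_ne_zero
  rw [Nat.mul_div_cancel_left _ q.den_pos]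
  push_cast
  have h2 : (q.den : ℚ≥0) * q = q.num := by
    have h3 := NNRat.num_div_den q
    rw [div_eq_iff hd] at h3
    rw [mul_comm]
    exact h3.symm
  rw [← h2]
  ring

/-- Scaling of a triple. -/
def scT (N : ℕ) (e : ℕ × ℕ × ℚ≥0) : ℕ × ℕ × ℕ := (e.1, e.2.1, scq N e.2.2)

section scale

variable {N : ℕ} {C : Set (ℕ × ℕ × ℚ≥0)}

lemma walk_scale_of (hC : ∀ e ∈ C, e.2.2.den ∣ N) {x y : ℕ} {w : ℚ≥0} (h : Walk C x y w) :
    ∃ n : ℕ, (n : ℚ≥0) = N * w ∧ Walk (scT N '' C) x y n := by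
  induction h with
  | nil x => exact ⟨0, by simp, Walk.nil x⟩
  | @cons x y z l w hl _ ih =>
    obtain ⟨n, hn, hw⟩ := ih
    refine ⟨scq N l + n, ?_, Walk.cons ⟨_, hl, rfl⟩ hw⟩
    push_cast
    rw [hn, scq_spec (hC _ hl), mul_add]

lemma of_walk_scale (hC : ∀ e ∈ C, e.2.2.den ∣ N) {x y n : ℕ} (h : Walk (scT N '' C) x y n) :
    ∃ w : ℚ≥0, (n : ℚ≥0) = N * w ∧ Walk C x y w := by
  induction h with
  | nil x => exact ⟨0, by simp, Walk.nil x⟩
  | @cons x y z l n hl _ ih =>
    obtain ⟨w, hn, hw⟩ := ih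
    obtain ⟨e, he, h2⟩ := hl
    simp only [scT, Prod.mk.injEq] at h2
    obtain ⟨rfl, rfl, rfl⟩ := h2
    refine ⟨e.2.2 + w, ?_, Walk.cons he hw⟩
    push_cast
    rw [hn, scq_spec (hC _ he), mul_add]

lemma walk_scale_iff (hC : ∀ e ∈ C, e.2.2.den ∣ N) {x y n : ℕ} {w : ℚ≥0} (hN : N ≠ 0)
    (h : (n : ℚ≥0) = N * w) : Walk (scT N '' C) x y n ↔ Walk C x y w := by
  have hN' : (N : ℚ≥0) ≠ 0 := by exact_mod_cast hN
  constructor
  · intro h1
    obtain ⟨w', h2, h3⟩ := of_walk_scale hC h1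
    rw [h] at h2
    rwa [mul_left_cancel₀ hN' h2]
  · intro h1
    obtain ⟨n', h2, h3⟩ := walk_scale_of hC h1
    rw [← h] at h2
    have : n' = n := by exact_mod_cast h2
    rwa [← this]

lemma isDist_scale_iff (hC : ∀ e ∈ C, e.2.2.den ∣ N) {x y n : ℕ} {w : ℚ≥0} (hN : N ≠ 0)
    (h : (n : ℚ≥0) = N * w) : IsDist (scT N '' C) x y n ↔ IsDist C x y w := by
  have hN' : (0 : ℚ≥0) < N := by
    have : 0 < N := Nat.pos_of_ne_zero hN
    exact_mod_cast this
  unfold IsDist
  rw [walk_scale_iff hC hN h]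
  refine and_congr_right fun _ => ⟨fun h1 w' hw' => ?_, fun h1 n' hn' => ?_⟩
  · obtain ⟨n', h2, h3⟩ := walk_scale_of hC hw'
    have h4 : (n : ℚ≥0) ≤ n' := by exact_mod_cast h1 n' h3
    rw [h, h2] at h4
    exact le_of_mul_le_mul_left h4 hN'
  · obtain ⟨w', h2, h3⟩ := of_walk_scale hC hn'
    have h4 := h1 w' h3
    have h5 : (n : ℚ≥0) ≤ n' := by
      rw [h, h2]
      exact mul_le_mul_of_nonneg_left h4 hN'.le
    exact_mod_cast h5

lemma exists_isDist_of_walk (hC : ∀ e ∈ C, e.2.2.den ∣ N) (hN : N ≠ 0) {x y : ℕ} {w : ℚ≥0}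
    (h : Walk C x y w) : ∃ v, IsDist C x y v := by
  obtain ⟨n, -, h1⟩ := walk_scale_of hC h
  obtain ⟨m, hm⟩ := exists_isDist h1
  obtain ⟨v, h2, -⟩ := of_walk_scale hC hm.1
  exact ⟨v, (isDist_scale_iff hC hN h2).1 hm⟩

end scale

lemma dist_of_isDist {C : List (ℕ × ℕ × ℚ≥0)} {x y : ℕ} {v : ℚ≥0}
    (h : IsDist {e | e ∈ C} x y v) : dist C x y = ((v : NNReal) : ENNReal) := by
  unfold dist
  apply le_antisymm
  · exact iInf_le (fun w : {w : ℚ≥0 // Walk {e | e ∈ C} x y w} => ((w.1 : NNReal) : ENNReal))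
      ⟨v, h.1⟩
  · refine le_iInf fun w => ?_
    have := h.2 w.1 w.2
    exact_mod_cast this

lemma dist_of_none {C : List (ℕ × ℕ × ℚ≥0)} {x y : ℕ}
    (h : ∀ w, ¬ Walk {e | e ∈ C} x y w) : dist C x y = ⊤ := by
  unfold dist
  have : IsEmpty {w : ℚ≥0 // Walk {e | e ∈ C} x y w} := ⟨fun w => h w.1 w.2⟩
  exact iInf_of_empty _

/-- Equality of distances in terms of integral lengths. -/
lemma dist_eq_iff {N : ℕ} (hN : N ≠ 0) {O C : List (ℕ × ℕ × ℚ≥0)}
    (hC : ∀ e ∈ C, e.2.2.den ∣ N) (hO : ∀ e ∈ O, e ∈ C) {x y : ℕ} :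
    dist O x y = dist C x y ↔ ∀ n, IsDist (scT N '' {e | e ∈ C}) x y n →
      Walk (scT N '' {e | e ∈ O}) x y n := by
  have hC' : ∀ e ∈ {e | e ∈ C}, e.2.2.den ∣ N := hC
  have hO' : ∀ e ∈ {e | e ∈ O}, e.2.2.den ∣ N := fun e he => hC e (hO e he)
  have hsub : {e | e ∈ O} ⊆ {e | e ∈ C} := hO
  constructor
  · intro h n hn
    obtain ⟨w, h1, -⟩ := of_walk_scale hC' hn.1
    have h2 := (isDist_scale_iff hC' hN h1).1 hn
    rw [dist_of_isDist h2] at h
    by_cases h3 : ∃ w, Walk {e | e ∈ O} x y w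
    · obtain ⟨w', hw'⟩ := h3
      obtain ⟨v, hv⟩ := exists_isDist_of_walk hO' hN hw'
      rw [dist_of_isDist hv] at h
      have h4 : v = w := by exact_mod_cast h
      rw [walk_scale_iff hO' hN h1, ← h4]
      exact hv.1
    · push Not at h3
      rw [dist_of_none h3] at h
      exact absurd h.symm ENNReal.coe_ne_top
  · intro h
    by_cases h3 : ∃ w, Walk {e | e ∈ C} x y w
    · obtain ⟨w', hw'⟩ := h3
      obtain ⟨v, hv⟩ := exists_isDist_of_walk hC' hN hw'
      obtain ⟨n, h1, -⟩ := walk_scale_of hC' hv.1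
      have h2 := h n ((isDist_scale_iff hC' hN h1).2 hv)
      rw [walk_scale_iff hO' hN h1] at h2
      rw [dist_of_isDist hv, dist_of_isDist (C := O) ⟨h2, fun w hw => hv.2 w (hw.mono hsub)⟩]
    · push Not at h3
      rw [dist_of_none h3, dist_of_none fun w hw => h3 w (hw.mono hsub)]

/-! ### the darts of an instance -/

/-- The common denominator. -/
def Inst.den (G : Inst) : ℕ := ((G.edges ++ G.arcs).map fun e => e.2.2.den).prod

lemma Inst.den_ne (G : Inst) : G.den ≠ 0 := by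
  unfold Inst.den
  rw [Ne, List.prod_eq_zero_iff]
  intro h
  obtain ⟨e, -, he⟩ := List.mem_map.1 h
  exact e.2.2.den_ne_zero he

/-- The darts of an instance. -/
def Inst.darts (G : Inst) : List Dart :=
  (G.edges.zipIdx.flatMap fun p => [((p.2, true, scT G.den p.1) : Dart),
    (p.2, false, swp (scT G.den p.1))]) ++
  G.arcs.zipIdx.map fun p => (G.edges.length + p.2, true, scT G.den p.1)

lemma mem_darts {G : Inst} {d : Dart} : d ∈ G.darts ↔
    (∃ i e, G.edges[i]? = some e ∧ (d = (i, true, scT G.den e) ∨ d = (i, false, swp (scT G.den e)))) ∨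
    ∃ j e, G.arcs[j]? = some e ∧ d = (G.edges.length + j, true, scT G.den e) := by
  unfold Inst.darts
  rw [List.mem_append, List.mem_flatMap, List.mem_map]
  refine or_congr ?_ ?_
  · constructor
    · rintro ⟨⟨e, i⟩, h1, h2⟩
      rw [List.mem_zipIdx_iff_getElem?] at h1
      refine ⟨i, e, h1, ?_⟩
      simpa using h2
    · rintro ⟨i, e, h1, h2⟩
      refine ⟨(e, i), List.mem_zipIdx_iff_getElem?.2 h1, ?_⟩
      simpa using h2
  · constructor
    · rintro ⟨⟨e, j⟩, h1, h2⟩
      rw [List.mem_zipIdx_iff_getElem?] at h1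
      exact ⟨j, e, h1, h2.symm⟩
    · rintro ⟨j, e, h1, h2⟩
      exact ⟨(e, j), List.mem_zipIdx_iff_getElem?.2 h1, h2.symm⟩

/-- The darts of the orientation `σ`. -/
def Inst.odarts (G : Inst) (σ : ℕ → Bool) : Set Dart :=
  {d | d ∈ G.darts ∧ (G.edges.length ≤ d.1 ∨ d.2.1 = σ d.1)}

lemma den_dvd {G : Inst} {e : ℕ × ℕ × ℚ≥0} (he : e ∈ G.full) : e.2.2.den ∣ G.den := by
  unfold Inst.den
  unfold Inst.full at he
  rw [List.mem_append, List.mem_append, List.mem_map] at he
  rcases he with (he | ⟨e', he, rfl⟩) | he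
  · exact List.dvd_prod (List.mem_map.2 ⟨e, by simp [he], rfl⟩)
  · exact List.dvd_prod (List.mem_map.2 ⟨e', by simp [he], rfl⟩)
  · exact List.dvd_prod (List.mem_map.2 ⟨e, by simp [he], rfl⟩)

lemma orient_subset {G : Inst} {σ : ℕ → Bool} {e : ℕ × ℕ × ℚ≥0} (he : e ∈ G.orient σ) :
    e ∈ G.full := by
  unfold Inst.orient at he
  unfold Inst.full
  rw [List.mem_append, List.mem_mapIdx] at he
  rw [List.mem_append, List.mem_append, List.mem_map]
  rcases he with ⟨i, hi, h⟩ | he
  · left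
    cases hσ : σ i
    · rw [hσ] at h
      exact Or.inr ⟨_, List.getElem_mem hi, h⟩
    · rw [hσ] at h
      left
      rw [← h]
      exact List.getElem_mem hi
  · exact Or.inr he

lemma scT_swp (N : ℕ) (e : ℕ × ℕ × ℚ≥0) : scT N (swp e) = swp (scT N e) := rfl

lemma arc_darts (G : Inst) : arc '' {d | d ∈ G.darts} = scT G.den '' {e | e ∈ G.full} := by
  ext c
  constructor
  · rintro ⟨d, hd, rfl⟩
    rcases mem_darts.1 hd with ⟨i, e, he, h | h⟩ | ⟨j, e, he, h⟩
    · have := List.mem_of_getElem? he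
      exact ⟨e, by simp [Inst.full, this], by rw [h]; rfl⟩
    · have := List.mem_of_getElem? he
      refine ⟨swp e, ?_, by rw [h]; rfl⟩
      show swp e ∈ G.full
      unfold Inst.full
      exact List.mem_append_left _ (List.mem_append_right _ (List.mem_map_of_mem this))
    · have := List.mem_of_getElem? he
      exact ⟨e, by simp [Inst.full, this], by rw [h]; rfl⟩
  · rintro ⟨e, he, rfl⟩
    have he' : e ∈ G.full := he
    unfold Inst.full at he'
    rw [List.mem_append, List.mem_append, List.mem_map] at he'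
    rcases he' with (h1 | ⟨e', h1, rfl⟩) | h1
    · obtain ⟨i, hi⟩ := List.mem_iff_getElem?.1 h1
      exact ⟨(i, true, scT G.den e), mem_darts.2 (Or.inl ⟨i, e, hi, Or.inl rfl⟩), rfl⟩
    · obtain ⟨i, hi⟩ := List.mem_iff_getElem?.1 h1
      exact ⟨(i, false, swp (scT G.den e')), mem_darts.2 (Or.inl ⟨i, e', hi, Or.inr rfl⟩), rfl⟩
    · obtain ⟨i, hi⟩ := List.mem_iff_getElem?.1 h1
      exact ⟨(_, true, scT G.den e), mem_darts.2 (Or.inr ⟨i, e, hi, rfl⟩), rfl⟩

lemma arc_odarts (G : Inst) (σ : ℕ → Bool) :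
    arc '' G.odarts σ = scT G.den '' {e | e ∈ G.orient σ} := by
  ext c
  constructor
  · rintro ⟨d, ⟨hd, hd2⟩, rfl⟩
    rcases mem_darts.1 hd with ⟨i, e, he, h | h⟩ | ⟨j, e, he, h⟩
    · obtain ⟨hi, hie⟩ := List.getElem?_eq_some_iff.1 he
      have hs : σ i = true := by
        rcases hd2 with h2 | h2
        · rw [h] at h2; simp at h2; omega
        · rw [h] at h2; exact h2.symm
      refine ⟨e, ?_, by rw [h]; rfl⟩
      show e ∈ G.orient σ
      unfold Inst.orient
      refine List.mem_append_left _ (List.mem_mapIdx.2 ⟨i, hi, ?_⟩)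
      rw [hs, hie]; rfl
    · obtain ⟨hi, hie⟩ := List.getElem?_eq_some_iff.1 he
      have hs : σ i = false := by
        rcases hd2 with h2 | h2
        · rw [h] at h2; simp at h2; omega
        · rw [h] at h2; exact h2.symm
      refine ⟨swp e, ?_, by rw [h]; rfl⟩
      show swp e ∈ G.orient σ
      unfold Inst.orient
      refine List.mem_append_left _ (List.mem_mapIdx.2 ⟨i, hi, ?_⟩)
      rw [hs, hie]; rfl
    · have := List.mem_of_getElem? he
      refine ⟨e, ?_, by rw [h]; rfl⟩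
      show e ∈ G.orient σ
      unfold Inst.orient
      exact List.mem_append_right _ this
  · rintro ⟨e, he, rfl⟩
    have he' : e ∈ G.orient σ := he
    unfold Inst.orient at he'
    rw [List.mem_append, List.mem_mapIdx] at he'
    rcases he' with ⟨i, hi, h⟩ | he
    · have hie : G.edges[i]? = some G.edges[i] := List.getElem?_eq_getElem hi
      cases hs : σ i
      · rw [hs] at h
        refine ⟨(i, false, swp (scT G.den G.edges[i])),
          ⟨mem_darts.2 (Or.inl ⟨i, _, hie, Or.inr rfl⟩), Or.inr hs.symm⟩, ?_⟩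
        rw [← h]; rfl
      · rw [hs] at h
        refine ⟨(i, true, scT G.den G.edges[i]),
          ⟨mem_darts.2 (Or.inl ⟨i, _, hie, Or.inl rfl⟩), Or.inr hs.symm⟩, ?_⟩
        rw [← h]; rfl
    · obtain ⟨j, hj⟩ := List.mem_iff_getElem?.1 he
      exact ⟨(G.edges.length + j, true, scT G.den e),
        ⟨mem_darts.2 (Or.inr ⟨j, e, hj, rfl⟩), Or.inl (Nat.le_add_right _ _)⟩, rfl⟩

lemma odarts_subset (G : Inst) (σ : ℕ → Bool) : G.odarts σ ⊆ {d | d ∈ G.darts} := fun _ h => h.1

lemma odarts_cons (G : Inst) (σ : ℕ → Bool) : dg.Cons (G.odarts σ) := by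
  rintro d ⟨hd, hd2⟩ ⟨ho, ho2⟩
  have ho' : dopp d ∈ G.darts := ho
  have ho2' : G.edges.length ≤ d.1 ∨ (!d.2.1) = σ d.1 := ho2
  have hlt : d.1 < G.edges.length := by
    by_contra hge
    rcases mem_darts.1 hd with ⟨i, e, he, h⟩ | ⟨j, e, he, h⟩
    · obtain ⟨hi, -⟩ := List.getElem?_eq_some_iff.1 he
      rcases h with h | h <;> · rw [h] at hge; exact hge hi
    · rcases mem_darts.1 ho' with ⟨i, e', he', h'⟩ | ⟨j', e', he', h'⟩
      · obtain ⟨hi, -⟩ := List.getElem?_eq_some_iff.1 he'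
        have h1 : d.1 = i := by
          rcases h' with h' | h' <;> exact congrArg Prod.fst h'
        omega
      · have h1 : (!d.2.1) = true := congrArg (fun x : Dart => x.2.1) h'
        rw [h] at h1
        simp at h1
  rcases hd2 with h | h
  · omega
  · rcases ho2' with h' | h'
    · omega
    · rw [h] at h'
      cases hs : σ d.1 <;> rw [hs] at h' <;> simp at h'

lemma exists_sigma (G : Inst) {F : Set Dart} (hF : F ⊆ {d | d ∈ G.darts}) (hc : dg.Cons F) :
    ∃ σ, F ⊆ G.odarts σ := by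
  classical
  refine ⟨fun i => decide (∃ d ∈ F, d.1 = i ∧ d.2.1 = true), fun d hd => ⟨hF hd, ?_⟩⟩
  by_cases hlt : d.1 < G.edges.length
  · right
    cases hb : d.2.1 with
    | true =>
      symm
      rw [decide_eq_true_iff]
      exact ⟨d, hd, rfl, hb⟩
    | false =>
      symm
      rw [decide_eq_false_iff_not]
      rintro ⟨d', hd', h1, h2⟩
      apply hc d' hd'
      have key : dopp d' = d := by
        rcases mem_darts.1 (hF hd) with ⟨i, e, he, h⟩ | ⟨j, e, he, h⟩
        · rcases mem_darts.1 (hF hd') with ⟨i', e', he', h'⟩ | ⟨j', e', he', h'⟩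
          · have hi : i = i' := by
              have a1 : d.1 = i := by rcases h with h | h <;> rw [h]
              have a2 : d'.1 = i' := by rcases h' with h' | h' <;> rw [h']
              rw [← a1, ← a2, h1]
            subst hi
            have hee : e = e' := by
              rw [he] at he'
              exact Option.some_inj.1 he'
            subst hee
            rcases h with h | h
            · rw [h] at hb; cases hb
            · rcases h' with h' | h'
              · rw [h, h']; rfl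
              · rw [h'] at h2; cases h2
          · rw [h'] at h1
            simp only at h1
            omega
        · rw [h] at hlt
          simp only at hlt
          omega
      show dopp d' ∈ F
      rw [key]
      exact hd
  · left
    omega

/-- Preservation of the distances in terms of the darts. -/
theorem orient_iff (G : Inst) :
    (∃ σ : ℕ → Bool, dist (G.orient σ) G.s G.t = dist G.full G.s G.t ∧
      dist (G.orient σ) G.t G.s = dist G.full G.t G.s) ↔
    ∃ F ⊆ {d | d ∈ G.darts}, dg.Cons F ∧ Pres {d | d ∈ G.darts} F G.s G.t := by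
  have key : ∀ (σ : ℕ → Bool) (x y : ℕ), dist (G.orient σ) x y = dist G.full x y ↔
      ∀ n, IsDist (arc '' {d | d ∈ G.darts}) x y n → Walk (arc '' G.odarts σ) x y n := by
    intro σ x y
    rw [dist_eq_iff G.den_ne (fun e he => den_dvd he) (fun e he => orient_subset he),
      arc_darts, arc_odarts]
  constructor
  · rintro ⟨σ, h1, h2⟩
    exact ⟨G.odarts σ, odarts_subset G σ, odarts_cons G σ, (key _ _ _).1 h1, (key _ _ _).1 h2⟩
  · rintro ⟨F, hF, hc, hP⟩
    obtain ⟨σ, hσ⟩ := exists_sigma G hF hc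
    have hP' := hP.mono hσ
    exact ⟨σ, (key _ _ _).2 hP'.1, (key _ _ _).2 hP'.2⟩

end Pool.Agent.MixedOrient
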